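import Pool.Agent.H554R2.RK.RectCover
import Pool.Agent.H554R2.RK.Congr
import Pool.Agent.H554R2.RK.Cut
import Pool.Agent.H554R2.RK.Mult
import Pool.Agent.H554R2.RK.Glue
import Pool.Agent.H554R2.RK.Colour

/-!
# The inputs accepted by a read-`k`-times program are covered by few rectangles: explicit constants
-/

set_option autoImplicit false

open Finset

namespace Pool.Agent.L5helper87.RR

open Pool.Agent.H554R2.Sem Pool.Agent.H554R2.RK

/-- random colourings of a family of small sets, with explicit constants (the proof of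
`Pool.Agent.H554R2.RK.colour`) -/
theorem colour' (k : ℕ) (ι : Type) [Fintype ι] [DecidableEq ι]
    (n : ℕ) (X : ι → Finset (Fin n)) (hQ : 8 * 4 ^ k ≤ n) (hX : ∀ i, 2 * (k + 1) * (X i).card ≤ n)
    (hk : ∀ v, (univ.filter (fun i => v ∈ X i)).card ≤ k) :
    ∃ (T : ι → Bool) (A B : Finset (Fin n)), Disjoint A B ∧ n ≤ 8 * 4 ^ k * A.card ∧
      n ≤ 8 * 4 ^ k * B.card ∧
      (∀ v ∈ A, ∀ i, v ∈ X i → T i = true) ∧ ∀ v ∈ B, ∀ i, v ∈ X i → T i = false := by
  have h4k : 1 ≤ 4 ^ k := Nat.one_le_pow _ _ (by norm_num)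
  have hn : 1 ≤ n := by omega
  -- a good colouring
  obtain ⟨T, hT⟩ : ∃ T : ι → Bool,
      n ^ 2 ≤ 2 * 4 ^ k * ((K5_cl X T true).card * (K5_cl X T false).card) := by
    by_contra hcon
    push Not at hcon
    have h1 := K5_sum k X hX hk
    have h2 : ∑ T : ι → Bool, 2 * 4 ^ k * ((K5_cl X T true).card * (K5_cl X T false).card) <
        ∑ _T : ι → Bool, n ^ 2 := sum_lt_sum_of_nonempty univ_nonempty fun T _ => hcon T
    have h3 : ∑ _T : ι → Bool, n ^ 2 = 2 ^ Fintype.card ι * n ^ 2 := by simp
    omega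
  have hcA : (K5_cl X T true).card ≤ n := by
    have := card_le_univ (K5_cl X T true); simpa using this
  have hcB : (K5_cl X T false).card ≤ n := by
    have := card_le_univ (K5_cl X T false); simpa using this
  have hA : n ≤ 2 * 4 ^ k * (K5_cl X T true).card := by
    have h1 : n * n ≤ n * (2 * 4 ^ k * (K5_cl X T true).card) := by
      calc n * n = n ^ 2 := by ring
        _ ≤ 2 * 4 ^ k * ((K5_cl X T true).card * (K5_cl X T false).card) := hT
        _ ≤ 2 * 4 ^ k * ((K5_cl X T true).card * n) :=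
          Nat.mul_le_mul_left _ (Nat.mul_le_mul_left _ hcB)
        _ = _ := by ring
    exact Nat.le_of_mul_le_mul_left h1 hn
  have hB : n ≤ 2 * 4 ^ k * (K5_cl X T false).card := by
    have h1 : n * n ≤ n * (2 * 4 ^ k * (K5_cl X T false).card) := by
      calc n * n = n ^ 2 := by ring
        _ ≤ 2 * 4 ^ k * ((K5_cl X T true).card * (K5_cl X T false).card) := hT
        _ ≤ 2 * 4 ^ k * (n * (K5_cl X T false).card) :=
          Nat.mul_le_mul_left _ (Nat.mul_le_mul_right _ hcA)
        _ = _ := by ring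
    exact Nat.le_of_mul_le_mul_left h1 hn
  set U0 : Finset (Fin n) := univ.filter (fun v => ∀ i, v ∉ X i) with hU0
  have hU : ∀ b, U0 ⊆ K5_cl X T b := by
    intro b v hv
    rw [hU0, mem_filter] at hv
    unfold K5_cl
    rw [mem_filter]
    exact ⟨mem_univ _, fun i hi => absurd hi (hv.2 i)⟩
  obtain ⟨C, hC, hCc⟩ := exists_subset_card_eq (show U0.card / 2 ≤ U0.card by omega)
  have hcard : ∀ b, (K5_cl X T b \ U0).card + U0.card = (K5_cl X T b).card := fun b =>
    card_sdiff_add_card_eq_card (hU b)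
  have hfin : ∀ (F : Finset (Fin n)) (b : Bool), n ≤ 2 * 4 ^ k * (K5_cl X T b).card →
      (K5_cl X T b).card ≤ 2 * F.card + 1 → n ≤ 8 * 4 ^ k * F.card := by
    intro F b h1 h2
    have h3 : n ≤ 2 * 4 ^ k * (2 * F.card + 1) := h1.trans (Nat.mul_le_mul_left _ h2)
    nlinarith
  refine ⟨T, (K5_cl X T true \ U0) ∪ C, (K5_cl X T false \ U0) ∪ (U0 \ C), ?_, ?_, ?_, ?_, ?_⟩
  · rw [disjoint_left]
    intro v hv hv'
    rw [mem_union, mem_sdiff] at hv
    rw [mem_union, mem_sdiff, mem_sdiff] at hv'
    rcases hv with ⟨h1, h2⟩ | h1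
    · rcases hv' with ⟨h3, -⟩ | ⟨h3, -⟩
      · apply h2
        rw [hU0, mem_filter]
        refine ⟨mem_univ _, fun i hi => ?_⟩
        unfold K5_cl at h1 h3
        have h4 := (mem_filter.1 h1).2 i hi
        have h5 := (mem_filter.1 h3).2 i hi
        rw [h4] at h5
        exact absurd h5 (by decide)
      · exact h2 h3
    · rcases hv' with ⟨-, h4⟩ | ⟨-, h4⟩
      · exact h4 (hC h1)
      · exact h4 h1
  · apply hfin _ true hA
    rw [card_union_of_disjoint]
    · have := hcard true
      omega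
    · exact disjoint_of_subset_right hC sdiff_disjoint
  · apply hfin _ false hB
    rw [card_union_of_disjoint]
    · have := hcard false
      have h6 : (U0 \ C).card + C.card = U0.card := card_sdiff_add_card_eq_card hC
      omega
    · exact disjoint_of_subset_right sdiff_subset sdiff_disjoint
  · intro v hv i hi
    rw [mem_union, mem_sdiff] at hv
    rcases hv with ⟨h1, -⟩ | h1
    · unfold K5_cl at h1
      exact (mem_filter.1 h1).2 i hi
    · have := hC h1
      rw [hU0, mem_filter] at this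
      exact absurd hi (this.2 i)
  · intro v hv i hi
    rw [mem_union, mem_sdiff, mem_sdiff] at hv
    rcases hv with ⟨h1, -⟩ | ⟨h1, -⟩
    · unfold K5_cl at h1
      exact (mem_filter.1 h1).2 i hi
    · rw [hU0, mem_filter] at h1
      exact absurd hi (h1.2 i)



open Classical in
/-- The inputs accepted by a nondeterministic read-`k`-times program with `S` nodes are covered by
`(S + 1) ^ (4 k ^ 2 + 4 k + 3)` sets which are rectangles with respect to two disjoint sets of at
least `n / (8 * 4 ^ k)` variables. -/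
theorem rect_cover' (k n : ℕ) (hn : 8 * 4 ^ k ≤ n) (P : NBP (Fin n)) (hP : ReadK P k) (S : ℕ)
    (hS : Fintype.card P.State ≤ S) :
    ∃ (m : ℕ) (ρ : Fin m → Finset (Pt n)), m ≤ (S + 1) ^ (4 * k ^ 2 + 4 * k + 3) ∧
      (∀ x, Acc P x ↔ ∃ j, x ∈ ρ j) ∧ ∀ j, IsRect (8 * 4 ^ k) (ρ j) := by
  set a := 2 * (k + 1) with ha
  have h4k : 1 ≤ 4 ^ k := Nat.one_le_pow _ _ (by norm_num)
  have hk4 : k + 1 ≤ 4 ^ k := by
    clear hn hP ha a
    induction k with
    | zero => simp
    | succ k ih => rw [pow_succ]; have := ih (Nat.one_le_pow _ _ (by norm_num)); omega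
  have hnpos : 0 < n := by omega
  have hna : a ≤ n := by omega
  set b := k * a with hb
  let D : Type := (Fin (b + 2) → Option P.State) × (Fin (b + 1) → Option P.State)
  let ρ' : D → Finset (Pt n) := fun δ =>
    univ.filter (fun x => K6_stat P a b δ ∧ ∀ t, K6_C P b δ x t)
  have hρ' : ∀ δ x, x ∈ ρ' δ ↔ (K6_stat P a b δ ∧ ∀ t, K6_C P b δ x t) := by
    intro δ x
    simp [ρ']
  let D' : Type := {δ : D // (ρ' δ).Nonempty}
  haveI : Fintype D' := Fintype.ofFinite D'
  let e : D' ≃ Fin (Fintype.card D') := Fintype.equivFin D'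
  refine ⟨Fintype.card D', fun j => ρ' (e.symm j).1, ?_, ?_, ?_⟩
  · have h1 : Fintype.card D' ≤ Fintype.card D :=
      Fintype.card_le_of_injective _ Subtype.val_injective
    refine h1.trans ?_
    rw [Fintype.card_prod, Fintype.card_fun, Fintype.card_fun, Fintype.card_option,
      Fintype.card_fin, Fintype.card_fin, ← pow_add]
    have h2 : b + 2 + (b + 1) = 4 * k ^ 2 + 4 * k + 3 := by rw [hb, ha]; ring
    rw [h2]
    exact Nat.pow_le_pow_left (by omega) _
  · intro x
    constructor
    · intro hx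
      obtain ⟨κ, u, h0, h1, h2, h3, h4⟩ := rk_cut k a (by omega) hnpos P hP x hx
      have hmem : x ∈ ρ' (κ, u) := (hρ' _ x).2 ⟨⟨h0, h1, h4⟩, by
        rintro (j | j)
        · exact h2 j
        · exact h3 j⟩
      refine ⟨e ⟨(κ, u), ⟨x, hmem⟩⟩, ?_⟩
      show x ∈ ρ' (e.symm (e ⟨(κ, u), ⟨x, hmem⟩⟩)).1
      rw [Equiv.symm_apply_apply]
      exact hmem
    · rintro ⟨j, hj⟩
      obtain ⟨⟨h0, h1, -⟩, h2⟩ := (hρ' _ x).1 hj
      exact rk_glue P x _ _ h0 h1 (fun j => h2 (Sum.inl j)) (fun j => h2 (Sum.inr j))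
  · intro j
    obtain ⟨⟨δ, x0, hx0⟩, hδ⟩ : ∃ d : D', e.symm j = d := ⟨_, rfl⟩
    show IsRect (8 * 4 ^ k) (ρ' (e.symm j).1)
    rw [hδ]
    show IsRect (8 * 4 ^ k) (ρ' δ)
    rw [hρ'] at hx0
    let X : Fin (b + 1) ⊕ Fin (b + 1) → Finset (Fin n) := fun t => K6_X P b δ t
    have hX : ∀ t, a * (X t).card ≤ n := by
      rintro (j | j)
      · exact hx0.1.2.2 j
      · have := K6_evar_card P (δ.2 j)
        calc a * (EVar P (δ.2 j)).card ≤ a * 1 := Nat.mul_le_mul_left _ this
          _ ≤ n := by omega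
    have hmult : ∀ v, (univ.filter (fun t => v ∈ X t)).card ≤ k := by
      intro v
      rw [Finset.card_filter, Fintype.sum_sum_type, ← Finset.card_filter, ← Finset.card_filter]
      have := rk_mult k P hP x0 δ.1 δ.2 hx0.1.1
        (fun j => hx0.2 (Sum.inl j)) (fun j => hx0.2 (Sum.inr j)) v
      refine (le_of_eq ?_).trans this
      refine congrArg₂ (· + ·) ?_ ?_
      · apply congrArg Finset.card
        ext j
        simp only [Finset.mem_filter, Finset.mem_univ, true_and]
        rfl
      · apply congrArg Finset.card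
        ext j
        simp only [Finset.mem_filter, Finset.mem_univ, true_and]
        rfl
    obtain ⟨T, A, B, hAB, hA, hB, hTA, hTB⟩ := colour' k _ n X hn hX hmult
    have K1 : K6_S1 := fun P x y u w h hx => reach_congr P x y u w h hx
    refine ⟨A, B, hAB, hA, hB,
      fun x => ∀ t, T t = true → K6_C P b δ x t,
      fun x => ∀ t, T t = false → K6_C P b δ x t, ?_, ?_, ?_⟩
    · intro x y hxy
      have key : ∀ x y : Pt n, (∀ v, v ∉ B → x v = y v) →
          (∀ t, T t = true → K6_C P b δ x t) → ∀ t, T t = true → K6_C P b δ y t := by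
        intro x y hxy h t ht
        refine K6_C_congr K1 P b δ x y t (fun v hv => hxy v ?_) (h t ht)
        intro hvB
        have := hTB v hvB t hv
        rw [ht] at this
        exact absurd this (by decide)
      exact ⟨key x y hxy, key y x (fun v hv => (hxy v hv).symm)⟩
    · intro x y hxy
      have key : ∀ x y : Pt n, (∀ v, v ∉ A → x v = y v) →
          (∀ t, T t = false → K6_C P b δ x t) → ∀ t, T t = false → K6_C P b δ y t := by
        intro x y hxy h t ht
        refine K6_C_congr K1 P b δ x y t (fun v hv => hxy v ?_) (h t ht)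
        intro hvA
        have := hTA v hvA t hv
        rw [ht] at this
        exact absurd this (by decide)
      exact ⟨key x y hxy, key y x (fun v hv => (hxy v hv).symm)⟩
    · intro x
      rw [hρ']
      constructor
      · intro h
        exact ⟨fun t _ => h.2 t, fun t _ => h.2 t⟩
      · rintro ⟨h1, h2⟩
        refine ⟨hx0.1, fun t => ?_⟩
        cases hT : T t with
        | true => exact h1 t hT
        | false => exact h2 t hT

end Pool.Agent.L5helper87.RR
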