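import Pool.Agent.L5helper87.RR.Count
import Pool.Agent.L5helper87.RR.Cover

/-!
# Read-`K`-times programs for the independent sets
-/

set_option autoImplicit false

open Finset

namespace Pool.Agent.L5helper87.RR

open Pool.Agent.H554R2.Sem Pool.Agent.H554R2.RK

theorem num_core (Q r m t : ℕ) (hQ : 1 ≤ Q) (hr : 8 * Q ≤ r) (ht : t = r / (1152 * Q ^ 3))
    (hm : (r - t * (288 * Q ^ 2)) ^ t ≤ m * (2 * (r - r / Q + (r / (4 * Q) + 1)) ^ t)) :
    2 ^ (t / (4 * Q)) ≤ 2 * m := by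
  have hQ' : (1 : ℝ) ≤ Q := by exact_mod_cast hQ
  have hr' : (8 : ℝ) * Q ≤ r := by exact_mod_cast hr
  have hrpos : (0 : ℝ) < r := by linarith
  have ht1 : (t : ℝ) * (1152 * Q ^ 3) ≤ r := by
    have : t * (1152 * Q ^ 3) ≤ r := by rw [ht]; exact Nat.div_mul_le_self _ _
    exact_mod_cast this
  have ht2 : t * (288 * Q ^ 2) ≤ r := by
    have h1 : t * (1152 * Q ^ 3) ≤ r := by rw [ht]; exact Nat.div_mul_le_self _ _
    have h2 : 288 * Q ^ 2 ≤ 1152 * Q ^ 3 := by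
      have : Q ^ 2 ≤ Q ^ 3 := Nat.pow_le_pow_right hQ (by norm_num)
      omega
    exact (Nat.mul_le_mul_left _ h2).trans h1
  have hX : (((r - t * (288 * Q ^ 2) : ℕ)) : ℝ) = r - t * (288 * Q ^ 2) := by
    rw [Nat.cast_sub ht2]; push_cast; ring
  have hd1 : r / Q ≤ r := Nat.div_le_self _ _
  have hY : (((r - r / Q + (r / (4 * Q) + 1) : ℕ)) : ℝ) = r - (r / Q : ℕ) + ((r / (4 * Q) : ℕ) + 1)
      := by
    push_cast [Nat.cast_sub hd1]
    ring
  have h1 : (r : ℝ) ≤ Q * ((r / Q : ℕ) + 1) := by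
    have : r < Q * (r / Q + 1) := Nat.lt_mul_div_succ _ (by omega)
    exact_mod_cast this.le
  have h2 : ((r / (4 * Q) : ℕ) : ℝ) * (4 * Q) ≤ r := by
    have := Nat.div_mul_le_self r (4 * Q)
    exact_mod_cast this
  set X : ℝ := r - t * (288 * Q ^ 2) with hXd
  set Y : ℝ := r - (r / Q : ℕ) + ((r / (4 * Q) : ℕ) + 1) with hYd
  have h3 : (r : ℝ) * (1 - 1 / (4 * Q)) ≤ X := by
    have : (t : ℝ) * (288 * Q ^ 2) ≤ r / (4 * Q) := by
      rw [le_div_iff₀ (by positivity)]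
      nlinarith
    rw [hXd, mul_sub, mul_one_div]
    linarith
  have h4 : Y ≤ r * (1 - 1 / (2 * Q)) := by
    have h5 : (r : ℝ) / Q ≤ (r / Q : ℕ) + 1 := by
      rw [div_le_iff₀ (by linarith)]; linarith
    have h6 : ((r / (4 * Q) : ℕ) : ℝ) ≤ r / Q / 4 := by
      rw [div_div, le_div_iff₀ (by positivity)]; linarith
    have h7 : (2 : ℝ) ≤ r / Q / 4 := by
      rw [div_div, le_div_iff₀ (by positivity)]; linarith
    have h8 : (r : ℝ) * (1 - 1 / (2 * Q)) = r - r / Q / 2 := by field_simp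
    rw [h8, hYd]
    linarith
  have hYpos : 0 < Y := by
    have : ((r / Q : ℕ) : ℝ) ≤ r := by exact_mod_cast hd1
    rw [hYd]
    have : (0 : ℝ) ≤ ((r / (4 * Q) : ℕ) : ℝ) := by positivity
    linarith
  have h5 : Y * (1 + 1 / (4 * Q)) ≤ X := by
    refine le_trans (mul_le_mul_of_nonneg_right h4 (by positivity)) (le_trans ?_ h3)
    rw [mul_assoc]
    refine mul_le_mul_of_nonneg_left ?_ hrpos.le
    have : (1 - 1 / (2 * (Q : ℝ))) * (1 + 1 / (4 * Q)) = 1 - 1 / (4 * Q) - 2 * (1 / (4 * Q)) ^ 2 := by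
      field_simp; ring
    rw [this]
    have : (0 : ℝ) ≤ 2 * (1 / (4 * Q)) ^ 2 := by positivity
    linarith
  have h6 : (1 + 1 / (4 * (Q : ℝ))) ^ t ≤ 2 * m := by
    have hm' : (((r - t * (288 * Q ^ 2) : ℕ)) : ℝ) ^ t ≤
        m * (2 * (((r - r / Q + (r / (4 * Q) + 1) : ℕ)) : ℝ) ^ t) := by exact_mod_cast hm
    rw [hX, hY] at hm'
    have h7 : (Y * (1 + 1 / (4 * Q))) ^ t ≤ X ^ t := pow_le_pow_left₀ (by positivity) h5 _
    rw [mul_pow] at h7
    have h8 : Y ^ t * (1 + 1 / (4 * (Q : ℝ))) ^ t ≤ Y ^ t * (2 * m) := by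
      calc _ ≤ X ^ t := h7
        _ ≤ m * (2 * Y ^ t) := hm'
        _ = _ := by ring
    exact le_of_mul_le_mul_left h8 (by positivity)
  have h7 : (2 : ℝ) ≤ (1 + 1 / (4 * (Q : ℝ))) ^ (4 * Q) := by
    have h8 := one_add_mul_le_pow (a := 1 / (4 * (Q : ℝ))) (by
      have : (0 : ℝ) ≤ 1 / (4 * (Q : ℝ)) := by positivity
      linarith) (4 * Q)
    have h9 : (1 : ℝ) + ((4 * Q : ℕ) : ℝ) * (1 / (4 * Q)) = 2 := by
      push_cast; field_simp; norm_num
    rw [h9] at h8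
    exact h8
  have h8 : (2 : ℝ) ^ (t / (4 * Q)) ≤ 2 * m := by
    calc (2 : ℝ) ^ (t / (4 * Q)) ≤ ((1 + 1 / (4 * (Q : ℝ))) ^ (4 * Q)) ^ (t / (4 * Q)) :=
          pow_le_pow_left₀ (by norm_num) h7 _
      _ = (1 + 1 / (4 * (Q : ℝ))) ^ (4 * Q * (t / (4 * Q))) := (pow_mul _ _ _).symm
      _ ≤ (1 + 1 / (4 * (Q : ℝ))) ^ t := by
          apply pow_le_pow_right₀
          · have : (0 : ℝ) ≤ 1 / (4 * (Q : ℝ)) := by positivity
            linarith
          · exact Nat.mul_div_le _ _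
      _ ≤ _ := h6
  exact_mod_cast h8

/-- There is a digraph `b` on `r` points such that every nondeterministic read-`K`-times program
which accepts exactly the independent sets of `b` is large. -/
theorem core (K r : ℕ) : ∃ b : Fin r → Fin r → Bool, ∀ P : NBP (Fin r), ReadK P K →
    (∀ y, Acc P y ↔ ¬ Conf b y) →
    2 ^ (r / (4608 * (8 * 4 ^ K) ^ 4)) ≤ 2 * (Fintype.card P.State + 1) ^ (4 * K ^ 2 + 4 * K + 3)
    := by
  set Q := 8 * 4 ^ K with hQd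
  have hQ : 1 ≤ Q := by
    have : 1 ≤ 4 ^ K := Nat.one_le_pow _ _ (by norm_num)
    omega
  by_cases hr : 8 * Q ≤ r
  swap
  · refine ⟨fun _ _ => false, fun P _ _ => ?_⟩
    have h1 : r / (4608 * Q ^ 4) = 0 := by
      apply Nat.div_eq_of_lt
      have h2 : Q ≤ Q ^ 4 := Nat.le_self_pow (by norm_num) _
      omega
    rw [h1, pow_zero]
    have : 1 ≤ (Fintype.card P.State + 1) ^ (4 * K ^ 2 + 4 * K + 3) :=
      Nat.one_le_pow _ _ (by omega)
    omega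
  obtain ⟨b, hb1, hb2, hb3⟩ := exists_graph (4 * Q) r (r / (4 * Q) + 1) (by omega)
    (Nat.lt_mul_div_succ _ (by omega)).le
  refine ⟨b, fun P hP hacc => ?_⟩
  obtain ⟨m, ρ, hm, hcov, hρ⟩ := rect_cover' K r (by omega) P hP _ le_rfl
  have hE : ∀ v, (univ.filter (fun w => b v w = true ∨ b w v = true)).card ≤ 288 * Q ^ 2 := by
    intro v
    rw [filter_or]
    have h1 := hb1 v
    have h2 := hb2 v
    have h3 := card_union_le (univ.filter (fun w => b v w = true))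
      (univ.filter (fun w => b w v = true))
    have h4 : 6 * (4 * Q) ^ 2 = 96 * Q ^ 2 := by ring
    have h5 : 12 * (4 * Q) ^ 2 = 192 * Q ^ 2 := by ring
    omega
  have ht2 : r / (1152 * Q ^ 3) * (288 * Q ^ 2) ≤ r := by
    have h1 : r / (1152 * Q ^ 3) * (1152 * Q ^ 3) ≤ r := Nat.div_mul_le_self _ _
    have h2 : 288 * Q ^ 2 ≤ 1152 * Q ^ 3 := by
      have : Q ^ 2 ≤ Q ^ 3 := Nat.pow_le_pow_right hQ (by norm_num)
      omega
    exact (Nat.mul_le_mul_left _ h2).trans h1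
  have hcov' : ∀ x, ¬ Conf b x ↔ ∃ j, x ∈ ρ j := fun x => (hacc x).symm.trans (hcov x)
  have h1 := cover_ineq b _ _ hE hb3 Q m ρ hρ hcov' (r / (1152 * Q ^ 3)) ht2
  have h2 := num_core Q r m _ hQ hr rfl h1
  have h3 : r / (1152 * Q ^ 3) / (4 * Q) = r / (4608 * Q ^ 4) := by
    rw [Nat.div_div_eq_div_mul]; congr 1; ring
  rw [h3] at h2
  exact h2.trans (Nat.mul_le_mul_left _ hm)

end Pool.Agent.L5helper87.RR
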