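import Pool.Agent.L5helper87.RR.Graph
import Pool.Agent.H554R2.RK.Defs

/-!
# Covers of the independent sets by rectangles
-/

set_option autoImplicit false

open Finset

namespace Pool.Agent.L5helper87.RR

open Pool.Agent.H554R2.Sem Pool.Agent.H554R2.RK

section

variable {r : ℕ}

/-- the indicator of the values of a tuple -/
def ind {t : ℕ} (τ : Fin t → Fin r) : Pt r := fun v => decide (∃ i, τ i = v)

/-- two active points are joined by an arc of `b` -/
def Conf (b : Fin r → Fin r → Bool) (y : Pt r) : Prop :=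
  ∃ v w, v ≠ w ∧ b v w = true ∧ y v = true ∧ y w = true

open Classical in
/-- greedy count of the independent tuples -/
theorem card_ind (b : Fin r → Fin r → Bool) (E c : ℕ)
    (hE : ∀ v, (univ.filter (fun w => b v w = true ∨ b w v = true)).card ≤ E) (t : ℕ)
    (hc : c + t * E ≤ r) :
    ∀ s ≤ t, c ^ s ≤ (univ.filter (fun τ : Fin s → Fin r => ¬ Conf b (ind τ))).card := by
  intro s
  induction s with
  | zero =>
    intro _
    rw [pow_zero, Nat.one_le_iff_ne_zero, ← Nat.pos_iff_ne_zero, card_pos]
    refine ⟨Fin.elim0, mem_filter.2 ⟨mem_univ _, ?_⟩⟩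
    rintro ⟨v, w, -, -, h1, -⟩
    unfold ind at h1
    obtain ⟨i, -⟩ := of_decide_eq_true h1
    exact i.elim0
  | succ s ih =>
    intro hs
    have ih' := ih (by omega)
    -- extensions
    have h1 : ∀ τ : Fin s → Fin r, c ≤ (univ.filter (fun a : Fin r =>
        ∀ i, b (τ i) a = false ∧ b a (τ i) = false)).card := by
      intro τ
      have h2 : (univ.filter (fun a : Fin r => ∀ i, b (τ i) a = false ∧ b a (τ i) = false))ᶜ ⊆
          univ.biUnion (fun i : Fin s => univ.filter
            (fun w => b (τ i) w = true ∨ b w (τ i) = true)) := by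
        intro a ha
        rw [mem_compl, mem_filter] at ha
        simp only [mem_univ, true_and, not_forall] at ha
        obtain ⟨i, hi⟩ := ha
        rw [mem_biUnion]
        refine ⟨i, mem_univ _, mem_filter.2 ⟨mem_univ _, ?_⟩⟩
        by_contra hcon
        push Not at hcon
        simp only [ne_eq, Bool.not_eq_true] at hcon
        exact hi hcon
      have h3 := card_le_card h2
      have h4 : (univ.biUnion (fun i : Fin s => univ.filter
            (fun w => b (τ i) w = true ∨ b w (τ i) = true))).card ≤ s * E := by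
        refine card_biUnion_le.trans ?_
        calc ∑ i : Fin s, (univ.filter (fun w => b (τ i) w = true ∨ b w (τ i) = true)).card
            ≤ ∑ _i : Fin s, E := sum_le_sum fun i _ => hE _
          _ = s * E := by simp
      have h5 := card_add_card_compl (univ.filter (fun a : Fin r =>
        ∀ i, b (τ i) a = false ∧ b a (τ i) = false))
      rw [Fintype.card_fin] at h5
      have h6 : s * E ≤ t * E := Nat.mul_le_mul_right _ (by omega)
      omega
    have h2 : ((univ.filter (fun τ : Fin s → Fin r => ¬ Conf b (ind τ))).sigma (fun τ =>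
        univ.filter (fun a : Fin r => ∀ i, b (τ i) a = false ∧ b a (τ i) = false))).card ≤
        (univ.filter (fun τ : Fin (s + 1) → Fin r => ¬ Conf b (ind τ))).card := by
      refine card_le_card_of_injOn (fun q => Fin.cons q.2 q.1) ?_ ?_
      · intro q hq
        obtain ⟨h3, h4⟩ := mem_sigma.1 (mem_coe.1 hq)
        have h3' := (mem_filter.1 h3).2
        have h4' := (mem_filter.1 h4).2
        refine mem_coe.2 (mem_filter.2 ⟨mem_univ _, ?_⟩)
        rintro ⟨v, w, hvw, hb, h5, h6⟩
        unfold ind at h5 h6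
        obtain ⟨i, hi⟩ := of_decide_eq_true h5
        obtain ⟨j, hj⟩ := of_decide_eq_true h6
        rcases Fin.eq_zero_or_eq_succ i with rfl | ⟨i', rfl⟩
        · rcases Fin.eq_zero_or_eq_succ j with rfl | ⟨j', rfl⟩
          · exact hvw (hi.symm.trans hj)
          · simp only [Fin.cons_zero, Fin.cons_succ] at hi hj
            have := (h4' j').2
            rw [hi, hj, hb] at this
            exact absurd this (by decide)
        · rcases Fin.eq_zero_or_eq_succ j with rfl | ⟨j', rfl⟩
          · simp only [Fin.cons_zero, Fin.cons_succ] at hi hj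
            have := (h4' i').1
            rw [hi, hj, hb] at this
            exact absurd this (by decide)
          · simp only [Fin.cons_succ] at hi hj
            exact h3' ⟨v, w, hvw, hb, decide_eq_true ⟨i', hi⟩, decide_eq_true ⟨j', hj⟩⟩
      · rintro ⟨τ, a⟩ _ ⟨τ', a'⟩ _ h
        simp only at h
        obtain ⟨h5, h6⟩ := Fin.cons_inj.1 h
        rw [h5, h6]
    rw [card_sigma] at h2
    calc c ^ (s + 1) = c ^ s * c := pow_succ _ _
      _ ≤ (univ.filter (fun τ : Fin s → Fin r => ¬ Conf b (ind τ))).card * c :=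
          Nat.mul_le_mul_right _ ih'
      _ = ∑ τ ∈ (univ.filter (fun τ : Fin s → Fin r => ¬ Conf b (ind τ))), c := by
          rw [sum_const, smul_eq_mul]
      _ ≤ _ := sum_le_sum fun τ _ => h1 τ
      _ ≤ _ := h2

open Classical in
/-- tuples whose elements in `A` belong to a small set which depends only on the elements
in `O` -/
theorem count_side (A O : Finset (Fin r)) (hO : Disjoint O A) (h t : ℕ)
    (T : Finset (Fin t → Fin r)) (A1 : Finset (Fin r) → Finset (Fin r))
    (hT : ∀ τ ∈ T, (A1 (O.filter (fun v => ∃ i, τ i = v))).card ≤ h ∧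
      ∀ i, τ i ∈ A → τ i ∈ A1 (O.filter (fun v => ∃ i, τ i = v))) :
    T.card ≤ (r - A.card + h) ^ t := by
  set σ : (Fin t → Fin r) → Finset (Fin r) := fun τ => O.filter (fun v => ∃ i, τ i = v) with hσ
  set e : Finset (Fin r) → Fin r → ℕ := fun S x => ((A1 S).filter (· < x)).card with he
  set W : Finset (Fin r ⊕ ℕ) := (Aᶜ).disjSum (range h) with hW
  have hWc : W.card = r - A.card + h := by
    rw [hW, card_disjSum, card_compl, Fintype.card_fin, card_range]
  have hlt : ∀ S x y, x ∈ A1 S → x < y → e S x < e S y := by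
    intro S x y hx hxy
    refine card_lt_card ⟨?_, ?_⟩
    · intro z hz
      rw [mem_filter] at hz ⊢
      exact ⟨hz.1, hz.2.trans hxy⟩
    · intro hsub
      have := hsub (mem_filter.2 ⟨hx, hxy⟩)
      exact absurd (mem_filter.1 this).2 (lt_irrefl _)
  have hinj : ∀ S x y, x ∈ A1 S → y ∈ A1 S → e S x = e S y → x = y := by
    intro S x y hx hy hxy
    rcases lt_trichotomy x y with h1 | h1 | h1
    · exact absurd hxy (hlt S x y hx h1).ne
    · exact h1
    · exact absurd hxy.symm (hlt S y x hy h1).ne
  have hval : ∀ S x, x ∈ A1 S → e S x < (A1 S).card := by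
    intro S x hx
    refine card_lt_card ⟨filter_subset _ _, ?_⟩
    intro hsub
    exact absurd (mem_filter.1 (hsub hx)).2 (lt_irrefl _)
  have key : T.card ≤ (Fintype.piFinset (fun _ : Fin t => W)).card := by
    refine card_le_card_of_injOn
      (fun τ i => if τ i ∈ A then Sum.inr (e (σ τ) (τ i)) else Sum.inl (τ i)) ?_ ?_
    · intro τ hτ
      have h1 := hT τ (mem_coe.1 hτ)
      refine mem_coe.2 (Fintype.mem_piFinset.2 fun i => ?_)
      simp only
      split_ifs with hi
      · rw [hW, mem_disjSum]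
        right
        exact ⟨_, mem_range.2 (lt_of_lt_of_le (hval _ _ (h1.2 i hi)) h1.1), rfl⟩
      · rw [hW, mem_disjSum]
        left
        exact ⟨_, mem_compl.2 hi, rfl⟩
    · intro τ hτ τ' hτ' heq
      have h1 := hT τ (mem_coe.1 hτ)
      have h1' := hT τ' (mem_coe.1 hτ')
      have h2 : ∀ i, (τ i ∈ A ↔ τ' i ∈ A) ∧ (τ i ∉ A → τ i = τ' i) := by
        intro i
        have h3 := congrFun heq i
        simp only at h3
        by_cases hi : τ i ∈ A
        · by_cases hi' : τ' i ∈ A
          · exact ⟨⟨fun _ => hi', fun _ => hi⟩, fun h => absurd hi h⟩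
          · rw [if_pos hi, if_neg hi'] at h3
            exact absurd h3 (by simp)
        · by_cases hi' : τ' i ∈ A
          · rw [if_neg hi, if_pos hi'] at h3
            exact absurd h3 (by simp)
          · rw [if_neg hi, if_neg hi'] at h3
            exact ⟨⟨fun h => absurd h hi, fun h => absurd h hi'⟩, fun _ => Sum.inl_injective h3⟩
      have h3 : σ τ = σ τ' := by
        ext v
        rw [hσ]
        simp only [mem_filter]
        constructor
        · rintro ⟨hv, i, rfl⟩
          have h4 : τ i ∉ A := fun h => (disjoint_left.1 hO) hv h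
          exact ⟨hv, i, ((h2 i).2 h4).symm⟩
        · rintro ⟨hv, i, rfl⟩
          have h4 : τ' i ∉ A := fun h => (disjoint_left.1 hO) hv h
          exact ⟨hv, i, (h2 i).2 (fun h => h4 ((h2 i).1.1 h))⟩
      funext i
      by_cases hi : τ i ∈ A
      · have h5 := congrFun heq i
        simp only at h5
        rw [if_pos hi, if_pos ((h2 i).1.1 hi), ← h3] at h5
        have h6 := h1'.2 i ((h2 i).1.1 hi)
        have h7 : (O.filter (fun v => ∃ i, τ' i = v)) = σ τ := h3.symm
        rw [h7] at h6
        exact hinj (σ τ) _ _ (h1.2 i hi) h6 (Sum.inr_injective h5)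
      · exact (h2 i).2 hi
  rw [Fintype.card_piFinset, prod_const, card_univ, Fintype.card_fin, hWc] at key
  exact key

open Classical in
/-- the tuples which belong to a rectangle of independent sets -/
theorem count_rect (b : Fin r → Fin r → Bool) (h : ℕ)
    (hb : ∀ A B : Finset (Fin r), h ≤ A.card → h ≤ B.card → ∃ v ∈ A, ∃ w ∈ B, b v w = true)
    (Q : ℕ) (ρ : Finset (Pt r)) (hρ : IsRect Q ρ) (hind : ∀ x ∈ ρ, ¬ Conf b x) (t : ℕ) :
    (univ.filter (fun τ : Fin t → Fin r => ind τ ∈ ρ)).card ≤ 2 * (r - r / Q + h) ^ t := by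
  obtain ⟨A, B, hAB, hA, hB, φ, ψ, hφ, hψ, hx⟩ := hρ
  set O : Finset (Fin r) := (A ∪ B)ᶜ with hO
  have hOA : Disjoint O A := by
    rw [hO, disjoint_left]
    intro x hx hxA
    exact (mem_compl.1 hx) (mem_union_left _ hxA)
  have hOB : Disjoint O B := by
    rw [hO, disjoint_left]
    intro x hx hxA
    exact (mem_compl.1 hx) (mem_union_right _ hxA)
  have hcase : ∀ v, v ∈ A ∨ v ∈ B ∨ v ∈ O := by
    intro v
    by_cases h1 : v ∈ A
    · exact Or.inl h1
    · by_cases h2 : v ∈ B
      · exact Or.inr (Or.inl h2)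
      · refine Or.inr (Or.inr ?_)
        rw [hO, mem_compl, mem_union]
        tauto
  -- the possible active elements, given the values outside
  let act : Finset (Fin r) → Finset (Fin r) → Finset (Fin r) := fun C S =>
    C.filter (fun a => ∃ y ∈ ρ, (∀ v ∈ O, y v = decide (v ∈ S)) ∧ y a = true)
  have hno : ∀ S, (act A S).card ≤ h ∨ (act B S).card ≤ h := by
    intro S
    by_contra hcon
    push Not at hcon
    obtain ⟨v, hv, w, hw, hvw⟩ := hb (act A S) (act B S) hcon.1.le hcon.2.le
    obtain ⟨hvA, y, hy, hyO, hyv⟩ := mem_filter.1 hv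
    obtain ⟨hwB, z, hz, hzO, hzw⟩ := mem_filter.1 hw
    let m : Pt r := fun u => if u ∈ B then z u else y u
    have h1 : φ m := by
      refine (hφ m y ?_).2 ((hx y).1 hy).1
      intro u hu
      simp only [m, if_neg hu]
    have h2 : ψ m := by
      refine (hψ m z ?_).2 ((hx z).1 hz).2
      intro u hu
      by_cases huB : u ∈ B
      · simp only [m, if_pos huB]
      · simp only [m, if_neg huB]
        have huO : u ∈ O := by
          rcases hcase u with h | h | h
          · exact absurd h hu
          · exact absurd h huB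
          · exact h
        rw [hyO u huO, hzO u huO]
    have h3 : m ∈ ρ := (hx m).2 ⟨h1, h2⟩
    refine hind m h3 ⟨v, w, ?_, hvw, ?_, ?_⟩
    · rintro rfl
      exact (disjoint_left.1 hAB) hvA hwB
    · have : v ∉ B := fun h => (disjoint_left.1 hAB) hvA h
      simp only [m, if_neg this]
      exact hyv
    · simp only [m, if_pos hwB]
      exact hzw
  have hmem : ∀ C : Finset (Fin r), ∀ τ : Fin t → Fin r, ind τ ∈ ρ → ∀ i, τ i ∈ C →
      τ i ∈ act C (O.filter (fun v => ∃ i, τ i = v)) := by
    intro C τ hτ i hi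
    refine mem_filter.2 ⟨hi, ind τ, hτ, ?_, ?_⟩
    · intro v hv
      unfold ind
      congr 1
      rw [mem_filter]
      simp [hv]
    · unfold ind
      exact decide_eq_true ⟨i, rfl⟩
  let TA := univ.filter (fun τ : Fin t → Fin r => ind τ ∈ ρ ∧
    (act A (O.filter (fun v => ∃ i, τ i = v))).card ≤ h)
  let TB := univ.filter (fun τ : Fin t → Fin r => ind τ ∈ ρ ∧
    (act B (O.filter (fun v => ∃ i, τ i = v))).card ≤ h)
  have hsub : univ.filter (fun τ : Fin t → Fin r => ind τ ∈ ρ) ⊆ TA ∪ TB := by
    intro τ hτ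
    have h1 := (mem_filter.1 hτ).2
    rw [mem_union]
    rcases hno (O.filter (fun v => ∃ i, τ i = v)) with h2 | h2
    · exact Or.inl (mem_filter.2 ⟨mem_univ _, h1, h2⟩)
    · exact Or.inr (mem_filter.2 ⟨mem_univ _, h1, h2⟩)
  have hTA : TA.card ≤ (r - A.card + h) ^ t :=
    count_side A O hOA h t TA (act A) (fun τ hτ => by
      obtain ⟨-, h1, h2⟩ := mem_filter.1 hτ
      exact ⟨h2, hmem A τ h1⟩)
  have hTB : TB.card ≤ (r - B.card + h) ^ t :=
    count_side B O hOB h t TB (act B) (fun τ hτ => by
      obtain ⟨-, h1, h2⟩ := mem_filter.1 hτ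
      exact ⟨h2, hmem B τ h1⟩)
  have hQ : ∀ C : Finset (Fin r), r ≤ Q * C.card → r - C.card + h ≤ r - r / Q + h := by
    intro C hC
    have : r / Q ≤ C.card := Nat.div_le_of_le_mul hC
    omega
  calc (univ.filter (fun τ : Fin t → Fin r => ind τ ∈ ρ)).card
      ≤ (TA ∪ TB).card := card_le_card hsub
    _ ≤ TA.card + TB.card := card_union_le _ _
    _ ≤ (r - r / Q + h) ^ t + (r - r / Q + h) ^ t := by
        refine Nat.add_le_add (hTA.trans ?_) (hTB.trans ?_)
        · exact Nat.pow_le_pow_left (hQ A hA) _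
        · exact Nat.pow_le_pow_left (hQ B hB) _
    _ = _ := by ring

open Classical in
/-- a cover of the independent sets by rectangles is large -/
theorem cover_ineq (b : Fin r → Fin r → Bool) (h E : ℕ)
    (hE : ∀ v, (univ.filter (fun w => b v w = true ∨ b w v = true)).card ≤ E)
    (hb : ∀ A B : Finset (Fin r), h ≤ A.card → h ≤ B.card → ∃ v ∈ A, ∃ w ∈ B, b v w = true)
    (Q m : ℕ) (ρ : Fin m → Finset (Pt r)) (hρ : ∀ j, IsRect Q (ρ j))
    (hcov : ∀ x, ¬ Conf b x ↔ ∃ j, x ∈ ρ j) (t : ℕ) (ht : t * E ≤ r) :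
    (r - t * E) ^ t ≤ m * (2 * (r - r / Q + h) ^ t) := by
  have h1 := card_ind b E (r - t * E) hE t (by omega) t le_rfl
  have h2 : (univ.filter (fun τ : Fin t → Fin r => ¬ Conf b (ind τ))) ⊆
      univ.biUnion (fun j : Fin m => univ.filter (fun τ : Fin t → Fin r => ind τ ∈ ρ j)) := by
    intro τ hτ
    obtain ⟨j, hj⟩ := (hcov _).1 (mem_filter.1 hτ).2
    exact mem_biUnion.2 ⟨j, mem_univ _, mem_filter.2 ⟨mem_univ _, hj⟩⟩
  calc (r - t * E) ^ t ≤ _ := h1
    _ ≤ _ := card_le_card h2
    _ ≤ ∑ j : Fin m, (univ.filter (fun τ : Fin t → Fin r => ind τ ∈ ρ j)).card :=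
        card_biUnion_le
    _ ≤ ∑ _j : Fin m, 2 * (r - r / Q + h) ^ t := sum_le_sum fun j _ =>
        count_rect b h hb Q (ρ j) (hρ j) (fun x hx => (hcov x).2 ⟨j, hx⟩) t
    _ = _ := by simp

end

end Pool.Agent.L5helper87.RR
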