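import Pool.Agent.H554R2.RK.Defs

/-!
# Branching programs for directed reachability: definitions
-/

set_option autoImplicit false

open Finset

namespace Pool.Agent.L5helper87.RR

open Pool.Agent.H554R2.Sem Pool.Agent.H554R2.RK

/-- The nondeterministic branching program `P` accepts the input `x`. -/
def Accepts {V : Type} (P : NBP V) (x : V → Bool) : Prop := ∃ l, P.Accepting x l

/-- On every path of the graph of `P` which starts in the start node (consistent with an input or
not) every variable `e` is tested at most `m e` times. -/
def TestBound {V : Type} [DecidableEq V] (P : NBP V) (m : V → ℕ) : Prop :=
  ∀ (l : List P.State) (t : Option P.State), hd l t = some P.start → Path P l t →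
    ∀ e : V, (l.map P.query).count (some e) ≤ m e

/-- The variables: `x (i, j)` tells whether the arc from `i` to `j` is present, `i < j`. -/
abbrev Inp (n : ℕ) : Type := Fin (n + 1) × Fin (n + 1) → Bool

/-- There is an arc from `i` to `j` in the digraph `x` with the vertices `0, ..., n`; all arcs go
from smaller to larger vertices. -/
def Arc {n : ℕ} (x : Inp n) (i j : Fin (n + 1)) : Prop := i < j ∧ x (i, j) = true

/-- There is a path from the vertex `0` to the vertex `n`. -/
def Conn {n : ℕ} (x : Inp n) : Prop := Relation.ReflTransGen (Arc x) 0 (Fin.last n)

/-- No path has more than five arcs. -/
def Shallow {n : ℕ} (x : Inp n) : Prop :=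
  ¬ ∃ p : Fin 7 → Fin (n + 1), ∀ i : Fin 6, Arc x (p i.castSucc) (p i.succ)

/-- A deterministic branching program over the variables `V`: in the node `q` the variable
`query q` is tested, and the computation proceeds to the node or sink `next q b`, where `b` is the
value of the variable; the sinks `true` and `false` give the output. -/
structure DBP (V : Type) where
  /-- the nodes, except the two sinks -/
  State : Type
  /-- there are finitely many of them -/
  [fintype : Fintype State]
  /-- the start node -/
  start : State
  /-- the variable tested in a node -/
  query : State → V
  /-- the next node or the output -/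
  next : State → Bool → State ⊕ Bool

attribute [instance] DBP.fintype

/-- The computation of `D` on the input `x` which is in the node `q` ends with the output `b`. -/
inductive DBP.Out {V : Type} (D : DBP V) (x : V → Bool) : D.State → Bool → Prop
  | sink {q : D.State} {b : Bool} : D.next q (x (D.query q)) = Sum.inr b → DBP.Out D x q b
  | step {q q' : D.State} {b : Bool} : D.next q (x (D.query q)) = Sum.inl q' →
      DBP.Out D x q' b → DBP.Out D x q b

/-- On every path of the graph of `D` which starts in the start node every variable `e` is tested
at most `m e` times. -/
def DBP.TestBound {V : Type} [DecidableEq V] (D : DBP V) (m : V → ℕ) : Prop :=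
  ∀ l : List D.State, l.head? = some D.start →
    l.IsChain (fun q q' => ∃ b, D.next q b = Sum.inl q') → ∀ e : V, (l.map D.query).count e ≤ m e

end Pool.Agent.L5helper87.RR
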