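import Pool.Agent.L5helper87.RR.Defs

/-!
# Deterministic programs as nondeterministic programs
-/

set_option autoImplicit false

open Finset

namespace Pool.Agent.L5helper87.RR

open Pool.Agent.H554R2.Sem Pool.Agent.H554R2.RK

variable {V : Type}

/-- The nondeterministic program which accepts the inputs on which `D` has the output `c`. -/
@[reducible] def toN (D : DBP V) (c : Bool) : NBP V where
  State := D.State
  start := D.start
  query q := some (D.query q)
  edge q b t := match D.next q b with
    | Sum.inl q' => t = some q'
    | Sum.inr d => d = c ∧ t = none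

theorem toN_step (D : DBP V) (c : Bool) (x : V → Bool) (q : D.State) (t : Option D.State) :
    (toN D c).Step x q t ↔ (toN D c).edge q (x (D.query q)) t := Iff.rfl

theorem out_of_run (D : DBP V) (c : Bool) (x : V → Bool) :
    ∀ (l : List D.State) (q : D.State), hd l none = some q → (toN D c).Run x l none →
      D.Out x q c := by
  intro l
  induction l with
  | nil => intro q h _; exact absurd h (by simp [hd])
  | cons q0 l ih =>
    intro q h hrun
    have h0 : q0 = q := Option.some_injective _ h
    subst h0
    obtain ⟨h1, h2⟩ := hrun
    have h1' : (toN D c).edge q0 (x (D.query q0)) (hd l none) := h1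
    simp only at h1'
    rcases h3 : D.next q0 (x (D.query q0)) with q' | d
    · rw [h3] at h1'
      exact DBP.Out.step h3 (ih q' h1' h2)
    · rw [h3] at h1'
      rw [h1'.1] at h3
      exact DBP.Out.sink h3

theorem run_of_out (D : DBP V) (c : Bool) (x : V → Bool) (q : D.State) (h : D.Out x q c) :
    ∃ l, hd l none = some q ∧ (toN D c).Run x l none := by
  induction h with
  | sink h1 =>
    rename_i q d
    refine ⟨[q], rfl, ?_, trivial⟩
    change (toN D d).edge q (x (D.query q)) none
    simp only [h1, and_self]
  | step h1 _ ih =>
    rename_i q q' d _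
    obtain ⟨l, h2, h3⟩ := ih
    refine ⟨q :: l, rfl, ?_, h3⟩
    change (toN D d).edge q (x (D.query q)) (hd l none)
    simp only [h1]
    exact h2

theorem toN_accepts (D : DBP V) (c : Bool) (x : V → Bool) :
    Accepts (toN D c) x ↔ D.Out x D.start c := by
  constructor
  · rintro ⟨l, h1, h2⟩
    exact out_of_run D c x l D.start h1 h2
  · intro h
    obtain ⟨l, h1, h2⟩ := run_of_out D c x D.start h
    exact ⟨l, h1, h2⟩

theorem toN_chain (D : DBP V) (c : Bool) : ∀ (l : List D.State) (t : Option D.State),
    Path (toN D c) l t → l.IsChain (fun q q' => ∃ b, D.next q b = Sum.inl q') := by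
  intro l
  induction l with
  | nil => intro t _; exact List.isChain_nil
  | cons q l ih =>
    intro t h
    obtain ⟨⟨b, h1⟩, h2⟩ := h
    have h3 := ih t h2
    cases l with
    | nil => exact List.isChain_singleton _
    | cons q' l =>
      rw [List.isChain_cons_cons]
      refine ⟨⟨b, ?_⟩, h3⟩
      have h1' : (toN D c).edge q b (some q') := h1
      simp only at h1'
      rcases h4 : D.next q b with q'' | d
      · rw [h4] at h1'
        rw [Option.some_injective _ h1']
      · rw [h4] at h1'
        exact absurd h1'.2 (by simp)

theorem toN_testBound [DecidableEq V] (D : DBP V) (c : Bool) (m : V → ℕ) (h : D.TestBound m) :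
    TestBound (toN D c) m := by
  intro l t h1 h2 e
  cases l with
  | nil => simp
  | cons q l =>
    have h0 : q = D.start := Option.some_injective _ h1
    have h3 := h (q :: l) (by rw [h0]; rfl) (toN_chain D c _ t h2) e
    refine le_trans (le_of_eq ?_) h3
    have h4 : ((q :: l).map (toN D c).query) = ((q :: l).map D.query).map some := by
      rw [List.map_map]; rfl
    rw [h4]
    exact List.count_map_of_injective _ _ (Option.some_injective _) _

end Pool.Agent.L5helper87.RR
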