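import Mathlib

/-!
# Digraphs of bounded degree without large empty rectangles
-/

set_option autoImplicit false

open Finset

namespace Pool.Agent.L5helper87.RR

/-- number of functions which avoid `B` on `T` -/
theorem card_avoid {α β : Type} [Fintype α] [DecidableEq α] [Fintype β] [DecidableEq β]
    (T : Finset α) (B : Finset β) :
    (univ.filter (fun f : α → β => ∀ a ∈ T, f a ∉ B)).card =
      (Fintype.card β - B.card) ^ T.card * Fintype.card β ^ (Fintype.card α - T.card) := by
  have e : univ.filter (fun f : α → β => ∀ a ∈ T, f a ∉ B) =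
      Fintype.piFinset (fun a => if a ∈ T then Bᶜ else univ) := by
    ext f
    simp only [mem_filter, mem_univ, true_and, Fintype.mem_piFinset]
    constructor
    · intro h a
      split_ifs with ha
      · rw [mem_compl]; exact h a ha
      · exact mem_univ _
    · intro h a ha
      have := h a
      rw [if_pos ha, mem_compl] at this
      exact this
  rw [e, Fintype.card_piFinset]
  have h1 : ∀ a : α, (if a ∈ T then Bᶜ else (univ : Finset β)).card =
      if a ∈ T then (Fintype.card β - B.card) else Fintype.card β := by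
    intro a
    split_ifs
    · rw [card_compl]
    · rw [card_univ]
  simp_rw [h1]
  rw [prod_ite, prod_const, prod_const]
  congr 2
  · congr 1; ext a; simp
  · have : (univ.filter (fun a => a ∉ T)) = Tᶜ := by ext a; simp
    rw [this, card_compl]

theorem num_graph (L r h : ℕ) (hr : 1 ≤ r) (hh : r ≤ L * h) (hh2 : h ≤ r) :
    4 ^ (2 * r) * ((2 * r - h) ^ (h * (6 * L ^ 2)) * (2 * r) ^ (2 * r * (6 * L ^ 2) -
      h * (6 * L ^ 2))) < (2 * r) ^ (2 * r * (6 * L ^ 2)) := by
  set D := 6 * L ^ 2 with hD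
  have h1 : h * D ≤ 2 * r * D := Nat.mul_le_mul_right _ (by omega)
  have h2 : (2 * r) ^ (2 * r * D) = (2 * r) ^ (h * D) * (2 * r) ^ (2 * r * D - h * D) := by
    rw [← pow_add]; congr 1; omega
  rw [h2, ← mul_assoc]
  apply Nat.mul_lt_mul_of_pos_right _ (by positivity)
  -- real inequality
  have h3 : ((4 : ℝ) ^ (2 * r) * ((2 * r - h : ℝ)) ^ (h * D)) < (2 * r : ℝ) ^ (h * D) := by
    have hr' : (0 : ℝ) < 2 * r := by positivity
    have h4 : (2 * r - h : ℝ) ≤ 2 * r * Real.exp (-(h / (2 * r))) := by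
      have := Real.add_one_le_exp (-((h : ℝ) / (2 * r)))
      calc (2 * r - h : ℝ) = 2 * r * (-((h : ℝ) / (2 * r)) + 1) := by field_simp; ring
        _ ≤ _ := by gcongr
    have h5 : (0 : ℝ) ≤ 2 * r - h := by
      have : (h : ℝ) ≤ r := by exact_mod_cast hh2
      have : (0 : ℝ) ≤ r := by positivity
      linarith
    have h6 : (2 * r - h : ℝ) ^ (h * D) ≤ (2 * r : ℝ) ^ (h * D) *
        Real.exp (-(h / (2 * r)) * (h * D : ℕ)) := by
      calc (2 * r - h : ℝ) ^ (h * D) ≤ (2 * r * Real.exp (-(h / (2 * r)))) ^ (h * D) :=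
            pow_le_pow_left₀ h5 h4 _
        _ = _ := by
            rw [mul_pow, ← Real.exp_nat_mul]
            congr 2
            ring
    have h7 : (-((h : ℝ) / (2 * r)) * (h * D : ℕ)) ≤ -(3 * r) := by
      have hLh : (r : ℝ) ≤ L * h := by exact_mod_cast hh
      have h8 : (r : ℝ) ^ 2 ≤ (L * h) ^ 2 := by gcongr
      have h9 : (-((h : ℝ) / (2 * r)) * (h * D : ℕ)) = -(3 * (L * h) ^ 2 / r) := by
        rw [hD]; push_cast; field_simp; ring
      rw [h9]
      have h10 : 3 * (r : ℝ) ≤ 3 * (L * h) ^ 2 / r := by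
        rw [le_div_iff₀ (by positivity)]
        nlinarith
      linarith
    have h11 : (4 : ℝ) ^ (2 * r) * Real.exp (-(3 * r)) < 1 := by
      have h12 : (4 : ℝ) ^ (2 * r) = 16 ^ r := by rw [pow_mul]; norm_num
      have h13 : Real.exp (3 * r) = (Real.exp 3) ^ r := by
        rw [← Real.exp_nat_mul]; congr 1; ring
      have h14 : (16 : ℝ) < Real.exp 3 := by
        have h15 := Real.exp_one_gt_d9
        have h16 : Real.exp 3 = (Real.exp 1) ^ 3 := by
          rw [← Real.exp_nat_mul]; norm_num
        rw [h16]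
        have h17 : (2.7 : ℝ) < Real.exp 1 := by linarith
        calc (16 : ℝ) < 2.7 ^ 3 := by norm_num
          _ ≤ (Real.exp 1) ^ 3 := by gcongr
      rw [Real.exp_neg, h13, h12, ← div_eq_mul_inv, div_lt_one (by positivity)]
      exact pow_lt_pow_left₀ h14 (by norm_num) (by omega)
    calc (4 : ℝ) ^ (2 * r) * ((2 * r - h : ℝ)) ^ (h * D)
        ≤ 4 ^ (2 * r) * ((2 * r : ℝ) ^ (h * D) * Real.exp (-(h / (2 * r)) * (h * D : ℕ))) := by
          gcongr
      _ ≤ 4 ^ (2 * r) * ((2 * r : ℝ) ^ (h * D) * Real.exp (-(3 * r))) := by gcongr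
      _ = (2 * r : ℝ) ^ (h * D) * (4 ^ (2 * r) * Real.exp (-(3 * r))) := by ring
      _ < (2 * r : ℝ) ^ (h * D) * 1 := by
          apply mul_lt_mul_of_pos_left h11 (by positivity)
      _ = _ := mul_one _
  have h8 : ((2 * r - h : ℕ) : ℝ) = 2 * r - h := by
    rw [Nat.cast_sub (by omega)]; push_cast; ring
  have h9 : ((4 ^ (2 * r) * (2 * r - h) ^ (h * D) : ℕ) : ℝ) < (((2 * r) ^ (h * D) : ℕ) : ℝ) := by
    push_cast [h8]
    exact h3
  exact_mod_cast h9

/-- There is a digraph on `r` vertices, all of whose in-degrees and out-degrees are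
at most `12 L ^ 2`, with an arc between any two sets of `h ≥ r / L` vertices. -/
theorem exists_graph (L r h : ℕ) (hr : 1 ≤ r) (hh : r ≤ L * h) :
    ∃ b : Fin r → Fin r → Bool,
      (∀ v, (univ.filter (fun w => b v w = true)).card ≤ 6 * L ^ 2) ∧
      (∀ w, (univ.filter (fun v => b v w = true)).card ≤ 12 * L ^ 2) ∧
      ∀ A B : Finset (Fin r), h ≤ A.card → h ≤ B.card → ∃ v ∈ A, ∃ w ∈ B, b v w = true := by
  classical
  by_cases hh2 : h ≤ r
  swap
  · refine ⟨fun _ _ => false, by simp, by simp, fun A B hA _ => ?_⟩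
    have := card_le_univ A
    rw [Fintype.card_fin] at this
    omega
  set D := 6 * L ^ 2 with hD
  -- a good function
  obtain ⟨f, hf⟩ : ∃ f : Fin (2 * r) × Fin D → Fin (2 * r),
      ∀ A B : Finset (Fin (2 * r)), A.card = h → B.card = h →
        ∃ p ∈ A ×ˢ (univ : Finset (Fin D)), f p ∈ B := by
    by_contra hcon
    push Not at hcon
    have h1 : (univ : Finset (Fin (2 * r) × Fin D → Fin (2 * r))) ⊆
        (univ.filter (fun q : Finset (Fin (2 * r)) × Finset (Fin (2 * r)) =>
          q.1.card = h ∧ q.2.card = h)).biUnion (fun q =>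
            univ.filter (fun f : Fin (2 * r) × Fin D → Fin (2 * r) =>
              ∀ a ∈ q.1 ×ˢ (univ : Finset (Fin D)), f a ∉ q.2)) := by
      intro f _
      obtain ⟨A, B, hA, hB, hAB⟩ := hcon f
      rw [mem_biUnion]
      exact ⟨(A, B), mem_filter.2 ⟨mem_univ _, hA, hB⟩, mem_filter.2 ⟨mem_univ _, hAB⟩⟩
    have h2 := card_le_card h1
    have h3 : (univ : Finset (Fin (2 * r) × Fin D → Fin (2 * r))).card = (2 * r) ^ (2 * r * D) := by
      rw [card_univ, Fintype.card_fun, Fintype.card_prod, Fintype.card_fin, Fintype.card_fin]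
    rw [h3] at h2
    have h4 := h2.trans card_biUnion_le
    have h5 : ∀ q ∈ (univ.filter (fun q : Finset (Fin (2 * r)) × Finset (Fin (2 * r)) =>
          q.1.card = h ∧ q.2.card = h)), (univ.filter
          (fun f : Fin (2 * r) × Fin D → Fin (2 * r) =>
              ∀ a ∈ q.1 ×ˢ (univ : Finset (Fin D)), f a ∉ q.2)).card =
          (2 * r - h) ^ (h * D) * (2 * r) ^ (2 * r * D - h * D) := by
      intro q hq
      obtain ⟨-, h6, h7⟩ := mem_filter.1 hq
      rw [card_avoid, Fintype.card_fin, h7, card_product, h6, card_univ, Fintype.card_fin,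
        Fintype.card_prod, Fintype.card_fin, Fintype.card_fin]
    rw [sum_congr rfl h5, sum_const, smul_eq_mul] at h4
    have h6 : (univ.filter (fun q : Finset (Fin (2 * r)) × Finset (Fin (2 * r)) =>
          q.1.card = h ∧ q.2.card = h)).card ≤ 4 ^ (2 * r) := by
      refine (card_le_univ _).trans (le_of_eq ?_)
      rw [Fintype.card_prod, Fintype.card_finset, Fintype.card_fin, ← mul_pow]
      norm_num
    have h7 := h4.trans (Nat.mul_le_mul_right _ h6)
    exact absurd (num_graph L r h hr hh hh2) (not_lt.2 h7)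
  -- vertices of small indegree
  set G : Finset (Fin (2 * r)) := univ.filter (fun w => (univ.filter (fun p => f p = w)).card ≤ 2 * D)
    with hG
  have hGc : r ≤ G.card := by
    have h1 : (2 * D + 1) * Gᶜ.card ≤ 2 * r * D := by
      have h2 : ∑ w ∈ Gᶜ, (univ.filter (fun p => f p = w)).card ≤ 2 * r * D := by
        calc ∑ w ∈ Gᶜ, (univ.filter (fun p => f p = w)).card
            ≤ ∑ w, (univ.filter (fun p => f p = w)).card := sum_le_sum_of_subset (subset_univ _)
          _ = (univ : Finset (Fin (2 * r) × Fin D)).card := by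
              rw [card_eq_sum_card_fiberwise (f := f) (t := univ) (fun _ _ => mem_univ _)]
          _ = 2 * r * D := by simp
      calc (2 * D + 1) * Gᶜ.card = ∑ w ∈ Gᶜ, (2 * D + 1) := by rw [sum_const, smul_eq_mul, mul_comm]
        _ ≤ ∑ w ∈ Gᶜ, (univ.filter (fun p => f p = w)).card := by
            refine sum_le_sum fun w hw => ?_
            rw [mem_compl, hG, mem_filter] at hw
            simp only [mem_univ, true_and, not_le] at hw
            exact hw
        _ ≤ _ := h2
    have h2 : Gᶜ.card ≤ r := by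
      by_contra hlt
      push Not at hlt
      have : (2 * D + 1) * (r + 1) ≤ 2 * r * D := (Nat.mul_le_mul_left _ hlt).trans h1
      nlinarith
    rw [card_compl, Fintype.card_fin] at h2
    omega
  obtain ⟨G', hG', hG'c⟩ := exists_subset_card_eq hGc
  let ι : Fin r → Fin (2 * r) := fun i => (G'.equivFinOfCardEq hG'c).symm i
  have hι : Function.Injective ι := fun i j h => by
    have := Subtype.val_injective h
    exact (G'.equivFinOfCardEq hG'c).symm.injective this
  have hιG : ∀ i, ι i ∈ G := fun i => hG' ((G'.equivFinOfCardEq hG'c).symm i).2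
  refine ⟨fun v w => decide (∃ j, f (ι v, j) = ι w), ?_, ?_, ?_⟩
  · intro v
    simp only [decide_eq_true_eq]
    have h1 : ((univ.filter (fun w => ∃ j, f (ι v, j) = ι w)).image ι) ⊆
        univ.image (fun j : Fin D => f (ι v, j)) := by
      intro x hx
      obtain ⟨w, hw, rfl⟩ := mem_image.1 hx
      obtain ⟨j, hj⟩ := (mem_filter.1 hw).2
      exact mem_image.2 ⟨j, mem_univ _, hj⟩
    have h2 := card_le_card h1
    rw [card_image_of_injective _ hι] at h2
    refine h2.trans (card_image_le.trans ?_)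
    simp
  · intro w
    simp only [decide_eq_true_eq]
    have h1 : ((univ.filter (fun v => ∃ j, f (ι v, j) = ι w)).image ι) ⊆
        (univ.filter (fun p : Fin (2 * r) × Fin D => f p = ι w)).image Prod.fst := by
      intro x hx
      obtain ⟨v, hv, rfl⟩ := mem_image.1 hx
      obtain ⟨j, hj⟩ := (mem_filter.1 hv).2
      exact mem_image.2 ⟨(ι v, j), mem_filter.2 ⟨mem_univ _, hj⟩, rfl⟩
    have h2 := card_le_card h1
    rw [card_image_of_injective _ hι] at h2
    refine h2.trans (card_image_le.trans ?_)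
    have := (mem_filter.1 (hιG w)).2
    have h3 : 2 * D = 12 * L ^ 2 := by rw [hD]; ring
    exact this.trans (le_of_eq h3)
  · intro A B hA hB
    obtain ⟨A', hA', hA'c⟩ := exists_subset_card_eq hA
    obtain ⟨B', hB', hB'c⟩ := exists_subset_card_eq hB
    obtain ⟨p, hp, hpB⟩ := hf (A'.image ι) (B'.image ι)
      (by rw [card_image_of_injective _ hι, hA'c]) (by rw [card_image_of_injective _ hι, hB'c])
    obtain ⟨v, hv, hv2⟩ := mem_image.1 (mem_product.1 hp).1
    obtain ⟨w, hw, hw2⟩ := mem_image.1 hpB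
    refine ⟨v, hA' hv, w, hB' hw, ?_⟩
    simp only [decide_eq_true_eq]
    exact ⟨p.2, by rw [hv2, hw2]⟩

end Pool.Agent.L5helper87.RR
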