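import Pool.Agent.L5helper87.RR.Restrict
import Pool.Agent.L5helper87.RR.Core

/-!
# The lower bound for non-reachability
-/

set_option autoImplicit false

open Finset

namespace Pool.Agent.L5helper87.RR

open Pool.Agent.H554R2.Sem Pool.Agent.H554R2.RK

theorem num_C (k : ℕ) (hk : 1 ≤ k) :
    8 * (4608 * (8 * 4 ^ (512 * k)) ^ 4 * (4 * (512 * k) ^ 2 + 4 * (512 * k) + 3 + 1)) + 8 ≤
      2 ^ (4200 * k) := by
  have e1 : (8 * 4 ^ (512 * k)) ^ 4 = 2 ^ (4096 * k + 12) := by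
    have h8 : (8 : ℕ) = 2 ^ 3 := by norm_num
    have h4 : (4 : ℕ) ^ (512 * k) = 2 ^ (1024 * k) := by
      have : (4 : ℕ) = 2 ^ 2 := by norm_num
      rw [this, ← pow_mul]; congr 1; ring
    rw [h4, h8, ← pow_add, ← pow_mul]
    congr 1; ring
  have e2 : 4 * (512 * k) ^ 2 + 4 * (512 * k) + 3 + 1 ≤ 2 ^ (21 + 2 * k) := by
    have h1 : k ≤ 2 ^ k := Nat.lt_two_pow_self.le
    have h2 : k ^ 2 ≤ 2 ^ (2 * k) := by
      calc k ^ 2 ≤ (2 ^ k) ^ 2 := Nat.pow_le_pow_left h1 2
        _ = 2 ^ (2 * k) := by rw [← pow_mul]; congr 1; ring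
    have h3 : k ≤ k ^ 2 := Nat.le_self_pow (by norm_num) _
    have h4 : 4 * (512 * k) ^ 2 + 4 * (512 * k) + 3 + 1 ≤ 2 ^ 21 * k ^ 2 := by
      have h5 : 4 * (512 * k) ^ 2 = 1048576 * k ^ 2 := by ring
      have h6 : (2 : ℕ) ^ 21 = 2097152 := by norm_num
      have h7 : 1 ≤ k ^ 2 := Nat.one_le_pow _ _ hk
      rw [h5, h6]
      omega
    calc _ ≤ 2 ^ 21 * k ^ 2 := h4
      _ ≤ 2 ^ 21 * 2 ^ (2 * k) := Nat.mul_le_mul_left _ h2
      _ = _ := by rw [← pow_add]
  rw [e1]
  have h46 : 4608 ≤ 2 ^ 13 := by norm_num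
  calc 8 * (4608 * 2 ^ (4096 * k + 12) * (4 * (512 * k) ^ 2 + 4 * (512 * k) + 3 + 1)) + 8
      ≤ 8 * (2 ^ 13 * 2 ^ (4096 * k + 12) * 2 ^ (21 + 2 * k)) + 8 := by gcongr
    _ = 2 ^ (4098 * k + 49) + 2 ^ 3 := by
        have : (8 : ℕ) = 2 ^ 3 := by norm_num
        rw [this, ← pow_add, ← pow_add, ← pow_add]
        congr 2; ring
    _ ≤ 2 ^ (4098 * k + 49) + 2 ^ (4098 * k + 49) := by
        gcongr
        · norm_num
        · omega
    _ = 2 ^ (4098 * k + 50) := by rw [← two_mul, ← pow_succ']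
    _ ≤ 2 ^ (4200 * k) := Nat.pow_le_pow_right (by norm_num) (by omega)

theorem num_final (n k S r : ℕ) (hk : 1 ≤ k) (hr : n ≤ 8 * r + 8)
    (h : 2 ^ (r / (4608 * (8 * 4 ^ (512 * k)) ^ 4)) ≤
      2 * (S + 1) ^ (4 * (512 * k) ^ 2 + 4 * (512 * k) + 3)) :
    2 ^ (n / (2 ^ 4200) ^ k) ≤ S + 1 := by
  have hC := num_C k hk
  set W := 4608 * (8 * 4 ^ (512 * k)) ^ 4 with hW
  set c := 4 * (512 * k) ^ 2 + 4 * (512 * k) + 3 with hc
  set B := 2 ^ (4200 * k) with hB
  have hpow : (2 ^ 4200) ^ k = B := by rw [hB, ← pow_mul]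
  rw [hpow]
  set N0 := n / B with hN0
  have hBpos : 0 < B := by rw [hB]; positivity
  by_cases h0 : N0 = 0
  · rw [h0, pow_zero]; omega
  have hWpos : 0 < W := by rw [hW]; positivity
  by_contra hcon
  push Not at hcon
  have h1 : (S + 1) ^ c ≤ (2 ^ N0) ^ c := Nat.pow_le_pow_left hcon.le _
  have h2 : 2 ^ (r / W) ≤ 2 ^ (N0 * c + 1) := by
    calc 2 ^ (r / W) ≤ 2 * (S + 1) ^ c := h
      _ ≤ 2 * (2 ^ N0) ^ c := Nat.mul_le_mul_left _ h1
      _ = 2 ^ (N0 * c + 1) := by rw [← pow_mul, pow_succ]; ring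
  have h3 : r / W ≤ N0 * c + 1 := (Nat.pow_le_pow_iff_right (by norm_num)).1 h2
  have h2' : 2 ^ (r / W) < 2 ^ (N0 * c + 1) := by
    have hcpos : c ≠ 0 := by rw [hc]; omega
    have h4 : (S + 1) ^ c < (2 ^ N0) ^ c := Nat.pow_lt_pow_left hcon hcpos
    calc 2 ^ (r / W) ≤ 2 * (S + 1) ^ c := h
      _ < 2 * (2 ^ N0) ^ c := by omega
      _ = 2 ^ (N0 * c + 1) := by rw [← pow_mul, pow_succ]; ring
  have h3' : r / W < N0 * c + 1 := (Nat.pow_lt_pow_iff_right (by norm_num)).1 h2'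
  have h5 : N0 * B ≤ n := by rw [hN0]; exact Nat.div_mul_le_self _ _
  have h6 : r < W * (r / W + 1) := Nat.lt_mul_div_succ _ hWpos
  have h7 : W * (r / W + 1) ≤ W * (N0 * c + 1) := Nat.mul_le_mul_left _ (by omega)
  have h8 : W * (N0 * c + 1) ≤ W * (c + 1) * N0 := by
    have h9 : N0 * c + 1 ≤ (c + 1) * N0 := by
      have : 1 ≤ N0 := Nat.one_le_iff_ne_zero.2 h0
      nlinarith
    calc W * (N0 * c + 1) ≤ W * ((c + 1) * N0) := Nat.mul_le_mul_left _ h9
      _ = _ := by ring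
  have h9 : (8 * (W * (c + 1)) + 8) * N0 ≤ B * N0 := Nat.mul_le_mul_right _ hC
  have h10 : 1 ≤ N0 := Nat.one_le_iff_ne_zero.2 h0
  have h11 : (8 * (W * (c + 1)) + 8) * N0 = 8 * (W * (c + 1) * N0) + 8 * N0 := by ring
  have h12 : B * N0 = N0 * B := mul_comm _ _
  omega

section hub

variable {n q : ℕ}

/-- a block of `q` vertices -/
def blk (n q j : ℕ) (h : j * q + q < n + 1) (i : Fin q) : Fin (n + 1) :=
  ⟨j * q + 1 + i.1, by have := i.2; omega⟩

theorem blk_inj (j : ℕ) (h : j * q + q < n + 1) : Function.Injective (blk n q j h) := by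
  intro i i' hi
  unfold blk at hi
  rw [Fin.mk.injEq] at hi
  exact Fin.ext (by omega)

/-- the block which contains a vertex -/
def rk (q : ℕ) (i : Fin (n + 1)) : ℕ :=
  if i.1 = 0 then 0 else if i.1 ≤ q then 1 else if i.1 ≤ 2 * q then 2 else
    if i.1 ≤ 3 * q then 3 else if i.1 ≤ 4 * q then 4 else 5

theorem rk_mono (i j : Fin (n + 1)) (h : rk q i < rk q j) : i < j := by
  by_contra hcon
  rw [not_lt, Fin.le_def] at hcon
  unfold rk at h
  split_ifs at h <;> omega

theorem rk_le (i : Fin (n + 1)) : rk q i ≤ 5 := by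
  unfold rk
  split_ifs <;> omega

/-- a vertex of small total test number -/
theorem hub_row (m : Fin (n + 1) × Fin (n + 1) → ℕ) (M : ℕ) (hm : ∑ e, m e ≤ M) (hq : 1 ≤ q)
    (f : Fin q × Fin q → Fin (n + 1) × Fin (n + 1))
    (hf : Function.Injective f) : ∃ i, q * ∑ j, m (f (i, j)) ≤ M := by
  by_contra hcon
  push Not at hcon
  have h1 : ∑ i : Fin q, ∑ j : Fin q, m (f (i, j)) ≤ M := by
    rw [← Fintype.sum_prod_type (f := fun p => m (f p))]
    calc ∑ p, m (f p) = ∑ e ∈ univ.map ⟨f, hf⟩, m e := by rw [sum_map]; rfl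
      _ ≤ ∑ e, m e := sum_le_sum_of_subset (subset_univ _)
      _ ≤ M := hm
  have h2 : ∑ _i : Fin q, M < ∑ i : Fin q, q * ∑ j, m (f (i, j)) := by
    haveI : Nonempty (Fin q) := ⟨⟨0, hq⟩⟩
    exact sum_lt_sum_of_nonempty univ_nonempty fun i _ => hcon i
  rw [← mul_sum, sum_const, card_univ, Fintype.card_fin, smul_eq_mul] at h2
  have h3 := Nat.mul_le_mul_left q h1
  omega

/-- many members of small test number -/
theorem good_many (g : Fin q → ℕ) (k : ℕ) (hk : 1 ≤ k) (hg : ∑ j, g j ≤ 64 * k * q) :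
    ∃ G : Finset (Fin q), G.card = q / 2 ∧ ∀ j ∈ G, g j ≤ 256 * k := by
  set G := univ.filter (fun j => g j ≤ 256 * k) with hG
  have h1 : 256 * k * Gᶜ.card ≤ 64 * k * q := by
    calc 256 * k * Gᶜ.card = ∑ j ∈ Gᶜ, 256 * k := by rw [sum_const, smul_eq_mul, mul_comm]
      _ ≤ ∑ j ∈ Gᶜ, g j := by
          refine sum_le_sum fun j hj => ?_
          rw [mem_compl, hG, mem_filter] at hj
          simp only [mem_univ, true_and, not_le] at hj
          exact hj.le
      _ ≤ ∑ j, g j := sum_le_sum_of_subset (subset_univ _)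
      _ ≤ _ := hg
  have h2 : 4 * Gᶜ.card ≤ q := by
    have h3 : (64 * k) * (4 * Gᶜ.card) ≤ (64 * k) * q := by
      calc (64 * k) * (4 * Gᶜ.card) = 256 * k * Gᶜ.card := by ring
        _ ≤ _ := h1
    exact Nat.le_of_mul_le_mul_left h3 (by omega)
  have h3 : q / 2 ≤ G.card := by
    have := card_add_card_compl G
    rw [Fintype.card_fin] at this
    omega
  obtain ⟨G', hG', hc⟩ := exists_subset_card_eq h3
  exact ⟨G', hc, fun j hj => (mem_filter.1 (hG' hj)).2⟩

end hub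

/-- The lower bound. -/
theorem lower (n k : ℕ) (hk : 1 ≤ k) (P : NBP (Fin (n + 1) × Fin (n + 1)))
    (m : Fin (n + 1) × Fin (n + 1) → ℕ) (hP : TestBound P m) (hm : ∑ e, m e ≤ k * n ^ 2)
    (hacc : ∀ x : Inp n, Shallow x → (Accepts P x ↔ ¬ Conn x)) :
    2 ^ (n / (2 ^ 4200) ^ k) ≤ Fintype.card P.State + 1 := by
  by_cases hn : 8 ≤ n
  swap
  · have h1 : n / (2 ^ 4200) ^ k = 0 := by
      apply Nat.div_eq_of_lt
      have h2 : 2 ^ 3 ≤ (2 ^ 4200) ^ k := by
        rw [← pow_mul]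
        exact Nat.pow_le_pow_right (by norm_num) (by omega)
      omega
    rw [h1, pow_zero]; omega
  set q := (n - 1) / 4 with hq
  have hq1 : 1 ≤ q := by omega
  have hq4 : 4 * q < n := by omega
  have hnq : n ≤ 8 * q := by omega
  have hn2 : k * n ^ 2 ≤ q * (64 * k * q) := by
    have : n ^ 2 ≤ (8 * q) ^ 2 := Nat.pow_le_pow_left hnq 2
    calc k * n ^ 2 ≤ k * (8 * q) ^ 2 := Nat.mul_le_mul_left _ this
      _ = _ := by ring
  -- the blocks
  let U := blk n q 0 (by omega)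
  let A := blk n q 1 (by omega)
  let C := blk n q 2 (by omega)
  let X := blk n q 3 (by omega)
  have hrU : ∀ i, rk q (U i) = 1 := by
    intro i
    have := i.2
    simp only [U, blk, rk]
    rw [if_neg (by omega), if_pos (by omega)]
  have hrA : ∀ i, rk q (A i) = 2 := by
    intro i
    have := i.2
    simp only [A, blk, rk]
    rw [if_neg (by omega), if_neg (by omega), if_pos (by omega)]
  have hrC : ∀ i, rk q (C i) = 3 := by
    intro i
    have := i.2
    simp only [C, blk, rk]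
    rw [if_neg (by omega), if_neg (by omega), if_neg (by omega), if_pos (by omega)]
  have hrX : ∀ i, rk q (X i) = 4 := by
    intro i
    have := i.2
    simp only [X, blk, rk]
    rw [if_neg (by omega), if_neg (by omega), if_neg (by omega), if_neg (by omega),
      if_pos (by omega)]
  have hr0 : rk q (0 : Fin (n + 1)) = 0 := by
    unfold rk; simp
  have hrn : rk q (Fin.last n) = 5 := by
    unfold rk
    simp only [Fin.val_last]
    rw [if_neg (by omega), if_neg (by omega), if_neg (by omega), if_neg (by omega),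
      if_neg (by omega)]
  have hUi : Function.Injective U := blk_inj 0 (by omega)
  have hAi : Function.Injective A := blk_inj 1 (by omega)
  have hCi : Function.Injective C := blk_inj 2 (by omega)
  have hXi : Function.Injective X := blk_inj 3 (by omega)
  obtain ⟨iu, hiu⟩ := hub_row m _ hm hq1 (fun p => (U p.1, A p.2)) (by
    intro p p' h
    obtain ⟨h1, h2⟩ := Prod.ext_iff.1 h
    exact Prod.ext (hUi h1) (hAi h2))
  obtain ⟨ix, hix⟩ := hub_row m _ hm hq1 (fun p => (C p.2, X p.1)) (by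
    intro p p' h
    obtain ⟨h1, h2⟩ := Prod.ext_iff.1 h
    exact Prod.ext (hXi h2) (hCi h1))
  simp only at hiu hix
  obtain ⟨GA, hGA, hGA2⟩ := good_many (fun j => m (U iu, A j)) k hk
    (Nat.le_of_mul_le_mul_left (hiu.trans hn2) (by omega))
  obtain ⟨GC, hGC, hGC2⟩ := good_many (fun j => m (C j, X ix)) k hk
    (Nat.le_of_mul_le_mul_left (hix.trans hn2) (by omega))
  set r := q / 2 with hr
  let α : Fin r → Fin (n + 1) := fun v => A ((GA.equivFinOfCardEq hGA).symm v)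
  let γ : Fin r → Fin (n + 1) := fun v => C ((GC.equivFinOfCardEq hGC).symm v)
  have hαi : Function.Injective α := fun v w h =>
    (GA.equivFinOfCardEq hGA).symm.injective (Subtype.val_injective (hAi h))
  have hγi : Function.Injective γ := fun v w h =>
    (GC.equivFinOfCardEq hGC).symm.injective (Subtype.val_injective (hCi h))
  obtain ⟨b, hb⟩ := core (512 * k) r
  have h1 := hb (restr P (sig b 0 (U iu) (X ix) (Fin.last n) α γ)) ?_ ?_
  · exact num_final n k _ r hk (by omega) h1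
  · refine restr_readK P m hP _ _ fun v => ?_
    have h2 : univ.filter (fun e => sig b 0 (U iu) (X ix) (Fin.last n) α γ e = Sum.inl v) ⊆
        {(U iu, α v), (γ v, X ix)} := by
      intro e he
      rcases (sig_inl b 0 (U iu) (X ix) (Fin.last n) α γ (rk q) (hrU _) (fun v => hrA _)
        (fun v => hrC _) (hrX _) hαi hγi e v).1 (mem_filter.1 he).2 with h | h
      · rw [h]; simp
      · rw [h]; simp
    refine (sum_le_sum_of_subset h2).trans ?_
    rw [sum_pair]
    · have h3 := hGA2 _ ((GA.equivFinOfCardEq hGA).symm v).2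
      have h4 := hGC2 _ ((GC.equivFinOfCardEq hGC).symm v).2
      have h5 : m (U iu, α v) ≤ 256 * k := h3
      have h6 : m (γ v, X ix) ≤ 256 * k := h4
      omega
    · intro h3
      have h4 := congrArg (rk q) (Prod.ext_iff.1 h3).1
      have h5 : rk q (γ v) = 3 := hrC _
      simp only [hrU, h5] at h4
      omega
  · intro y
    rw [restr_acc, hacc _ (ext_shallow b 0 (U iu) (X ix) (Fin.last n) α γ (rk q) rk_le hr0 (hrU _)
      (fun v => hrA _) (fun v => hrC _) (hrX _) hrn hαi hγi y), not_iff_not]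
    exact ext_reach b 0 (U iu) (X ix) (Fin.last n) α γ (rk q) rk_mono hr0 (hrU _)
      (fun v => hrA _) (fun v => hrC _) (hrX _) hrn hαi hγi y

end Pool.Agent.L5helper87.RR
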