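import Pool.Agent.L5helper87.RR.Defs
import Pool.Agent.L5helper87.RR.Count

/-!
# Restrictions of branching programs
-/

set_option autoImplicit false

open Finset

namespace Pool.Agent.L5helper87.RR

open Pool.Agent.H554R2.Sem Pool.Agent.H554R2.RK

section restrict

variable {V : Type} {r : ℕ}

/-- The input of `P` given by the values of the new variables. -/
def ext (σ : V → Fin r ⊕ Bool) (y : Pt r) : V → Bool := fun e =>
  match σ e with
  | Sum.inl v => y v
  | Sum.inr c => c

/-- The program `P` with its variables replaced by variables or constants. -/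
@[reducible] def restr (P : NBP V) (σ : V → Fin r ⊕ Bool) : NBP (Fin r) where
  State := P.State
  start := P.start
  query q := match P.query q with
    | none => none
    | some e => match σ e with
      | Sum.inl v => some v
      | Sum.inr _ => none
  edge q b t := match P.query q with
    | none => P.edge q b t
    | some e => match σ e with
      | Sum.inl _ => P.edge q b t
      | Sum.inr c => P.edge q c t

theorem restr_step (P : NBP V) (σ : V → Fin r ⊕ Bool) (y : Pt r) (q : P.State)
    (t : Option P.State) : (restr P σ).Step y q t ↔ P.Step (ext σ y) q t := by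
  unfold NBP.Step
  simp only [restr]
  rcases h1 : P.query q with _ | e
  · simp only
  · simp only
    rcases h2 : σ e with v | c
    · simp only [ext, h2]
    · simp only [ext, h2]
      constructor
      · rintro ⟨_, h⟩; exact h
      · intro h; exact ⟨true, h⟩

theorem restr_run (P : NBP V) (σ : V → Fin r ⊕ Bool) (y : Pt r) (l : List P.State)
    (t : Option P.State) : (restr P σ).Run y l t ↔ P.Run (ext σ y) l t := by
  induction l with
  | nil => exact Iff.rfl
  | cons q l ih =>
    change (restr P σ).Step y q (hd l t) ∧ (restr P σ).Run y l t ↔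
      P.Step (ext σ y) q (hd l t) ∧ P.Run (ext σ y) l t
    rw [restr_step, ih]

theorem restr_acc (P : NBP V) (σ : V → Fin r ⊕ Bool) (y : Pt r) :
    Pool.Agent.H554R2.RK.Acc (restr P σ) y ↔ Accepts P (ext σ y) := by
  unfold Pool.Agent.H554R2.RK.Acc Accepts NBP.Accepting
  exact exists_congr fun l => and_congr Iff.rfl (restr_run P σ y l none)

theorem restr_path (P : NBP V) (σ : V → Fin r ⊕ Bool) (l : List P.State)
    (t : Option P.State) (h : Path (restr P σ) l t) : Path P l t := by
  induction l with
  | nil => trivial
  | cons q l ih =>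
    obtain ⟨⟨b, h1⟩, h2⟩ := h
    refine ⟨?_, ih h2⟩
    simp only [restr] at h1
    rcases h3 : P.query q with _ | e
    · rw [h3] at h1; exact ⟨b, h1⟩
    · rw [h3] at h1
      simp only at h1
      rcases h4 : σ e with v | c
      · rw [h4] at h1; exact ⟨b, h1⟩
      · rw [h4] at h1; exact ⟨c, h1⟩

theorem restr_count [Fintype V] [DecidableEq V] (P : NBP V) (σ : V → Fin r ⊕ Bool)
    (l : List P.State) (v : Fin r) : (l.map (restr P σ).query).count (some v) =
      ∑ e ∈ univ.filter (fun e => σ e = Sum.inl v), (l.map P.query).count (some e) := by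
  induction l with
  | nil => simp
  | cons q l ih =>
    have hc : ∀ (o : Option (Fin r)) (L : List (Option (Fin r))),
        (o :: L).count (some v) = L.count (some v) + if o = some v then 1 else 0 := by
      intro o L
      rw [List.count_cons]
      congr 1
      by_cases h : o = some v
      · simp [h]
      · simp [h]
    have h1 : ∀ e : V, ((q :: l).map P.query).count (some e) = (l.map P.query).count (some e) +
        if P.query q = some e then 1 else 0 := by
      intro e
      rw [List.map_cons, List.count_cons]
      congr 1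
      by_cases h : P.query q = some e
      · simp [h]
      · simp [h]
    rw [List.map_cons, hc, ih]
    simp_rw [h1]
    rw [sum_add_distrib]
    congr 1
    have key : ∀ o : Option (Fin r), o = (match P.query q with
      | none => none
      | some e => match σ e with
        | Sum.inl v => some v
        | Sum.inr _ => none) → (if o = some v then 1 else 0) =
        ∑ e ∈ univ.filter (fun e => σ e = Sum.inl v), (if P.query q = some e then 1 else 0) := by
      intro o ho
      by_cases hn : ∃ e0, P.query q = some e0
      · obtain ⟨e0, h2⟩ := hn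
        rw [h2] at ho
        simp only at ho
        rw [h2]
        simp only [Option.some.injEq]
        rcases h3 : σ e0 with v0 | c
        · rw [h3] at ho
          simp only at ho
          rw [ho]
          simp only [Option.some.injEq]
          by_cases hv : v0 = v
          · subst hv
            have h6 : e0 ∈ univ.filter (fun e => σ e = Sum.inl v0) := mem_filter.2 ⟨mem_univ _, h3⟩
            rw [if_pos rfl, sum_ite_eq, if_pos h6]
          · rw [if_neg hv, sum_ite_eq, if_neg]
            intro h5
            have := (mem_filter.1 h5).2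
            rw [h3] at this
            exact hv (Sum.inl_injective this)
        · rw [h3] at ho
          simp only at ho
          have h6 : e0 ∉ univ.filter (fun e => σ e = Sum.inl v) := by
            intro h5
            have := (mem_filter.1 h5).2
            rw [h3] at this
            exact absurd this (by simp)
          rw [ho, sum_ite_eq, if_neg h6, if_neg (by simp)]
      · have h2 : P.query q = none := by
          rcases h : P.query q with _ | e
          · rfl
          · exact absurd ⟨e, h⟩ hn
        rw [h2] at ho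
        simp only at ho
        rw [ho, h2]
        simp
    exact key _ rfl

theorem restr_readK [Fintype V] [DecidableEq V] (P : NBP V) (m : V → ℕ) (hP : TestBound P m)
    (σ : V → Fin r ⊕ Bool) (K : ℕ)
    (hK : ∀ v, ∑ e ∈ univ.filter (fun e => σ e = Sum.inl v), m e ≤ K) : ReadK (restr P σ) K := by
  intro l t h1 h2 v
  rw [restr_count]
  refine le_trans (sum_le_sum fun e _ => ?_) (hK v)
  exact hP l t h1 (restr_path P σ l t h2) e

end restrict

section graph

variable {n r : ℕ}

open Classical in
/-- the restriction: the arcs `(u, α v)` and `(γ v, x)` are given by the variable `v` -/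
noncomputable def sig (b : Fin r → Fin r → Bool) (s u x t : Fin (n + 1))
    (α γ : Fin r → Fin (n + 1)) : Fin (n + 1) × Fin (n + 1) → Fin r ⊕ Bool := fun e =>
  if h : ∃ v, e = (u, α v) then Sum.inl h.choose
  else if h : ∃ v, e = (γ v, x) then Sum.inl h.choose
  else Sum.inr (decide (e = (s, u) ∨ e = (x, t) ∨
    ∃ v w, v ≠ w ∧ b v w = true ∧ e = (α v, γ w)))

variable (b : Fin r → Fin r → Bool) (s u x t : Fin (n + 1))
    (α γ : Fin r → Fin (n + 1)) (rk : Fin (n + 1) → ℕ)
    (hmono : ∀ i j, rk i < rk j → i < j) (hle : ∀ i, rk i ≤ 5)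
    (hs : rk s = 0) (hu : rk u = 1) (hα : ∀ v, rk (α v) = 2) (hγ : ∀ v, rk (γ v) = 3)
    (hx : rk x = 4) (ht : rk t = 5) (hαi : Function.Injective α) (hγi : Function.Injective γ)

include hu hα hγ hx hαi hγi in
theorem sig_inl (e : Fin (n + 1) × Fin (n + 1)) (v : Fin r) :
    sig b s u x t α γ e = Sum.inl v ↔ e = (u, α v) ∨ e = (γ v, x) := by
  unfold sig
  split_ifs with h1 h2
  · obtain ⟨w, hw⟩ := h1
    have hc : (⟨w, hw⟩ : ∃ v, e = (u, α v)).choose = w := by
      have h3 := (⟨w, hw⟩ : ∃ v, e = (u, α v)).choose_spec
      have h4 := (Prod.ext_iff.1 (hw.symm.trans h3)).2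
      exact (hαi h4).symm
    rw [hc, Sum.inl.injEq]
    constructor
    · rintro rfl; exact Or.inl hw
    · rintro (h | h)
      · rw [hw] at h
        exact hαi (Prod.ext_iff.1 h).2
      · rw [hw] at h
        have h3 := congrArg rk (Prod.ext_iff.1 h).1
        simp only [hu, hγ] at h3
        omega
  · obtain ⟨w, hw⟩ := h2
    have hc : (⟨w, hw⟩ : ∃ v, e = (γ v, x)).choose = w := by
      have h3 := (⟨w, hw⟩ : ∃ v, e = (γ v, x)).choose_spec
      have h4 := (Prod.ext_iff.1 (hw.symm.trans h3)).1
      exact (hγi h4).symm
    rw [hc, Sum.inl.injEq]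
    constructor
    · rintro rfl; exact Or.inr hw
    · rintro (h | h)
      · exact absurd ⟨v, h⟩ h1
      · rw [hw] at h
        exact hγi (Prod.ext_iff.1 h).1
  · constructor
    · intro h; exact absurd h (by simp)
    · rintro (h | h)
      · exact absurd ⟨v, h⟩ h1
      · exact absurd ⟨v, h⟩ h2

include hs hu hα hγ hx ht hαi hγi in
theorem ext_sig (y : Pt r) (e : Fin (n + 1) × Fin (n + 1)) :
    ext (sig b s u x t α γ) y e = true ↔
      (∃ v, e = (u, α v) ∧ y v = true) ∨ (∃ v, e = (γ v, x) ∧ y v = true) ∨ e = (s, u) ∨
        e = (x, t) ∨ ∃ v w, v ≠ w ∧ b v w = true ∧ e = (α v, γ w) := by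
  unfold ext
  rcases h1 : sig b s u x t α γ e with v | c
  · have h2 := (sig_inl b s u x t α γ rk hu hα hγ hx hαi hγi e v).1 h1
    simp only
    constructor
    · intro h
      rcases h2 with h2 | h2
      · exact Or.inl ⟨v, h2, h⟩
      · exact Or.inr (Or.inl ⟨v, h2, h⟩)
    · rintro (⟨w, hw, hy⟩ | ⟨w, hw, hy⟩ | hw | hw | ⟨v', w, -, -, hw⟩)
      · have := (sig_inl b s u x t α γ rk hu hα hγ hx hαi hγi e w).2 (Or.inl hw)
        rw [h1, Sum.inl.injEq] at this
        rw [this]; exact hy
      · have := (sig_inl b s u x t α γ rk hu hα hγ hx hαi hγi e w).2 (Or.inr hw)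
        rw [h1, Sum.inl.injEq] at this
        rw [this]; exact hy
      · exfalso
        rcases h2 with h2 | h2
        · rw [hw] at h2
          have := congrArg rk (Prod.ext_iff.1 h2).1
          simp only [hs, hu] at this
          omega
        · rw [hw] at h2
          have := congrArg rk (Prod.ext_iff.1 h2).1
          simp only [hs, hγ] at this
          omega
      · exfalso
        rcases h2 with h2 | h2
        · rw [hw] at h2
          have := congrArg rk (Prod.ext_iff.1 h2).1
          simp only [hx, hu] at this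
          omega
        · rw [hw] at h2
          have := congrArg rk (Prod.ext_iff.1 h2).1
          simp only [hx, hγ] at this
          omega
      · exfalso
        rcases h2 with h2 | h2
        · rw [hw] at h2
          have := congrArg rk (Prod.ext_iff.1 h2).1
          simp only [hα, hu] at this
          omega
        · rw [hw] at h2
          have := congrArg rk (Prod.ext_iff.1 h2).1
          simp only [hα, hγ] at this
          omega
  · have h2 : ∀ v, ¬ (e = (u, α v) ∨ e = (γ v, x)) := by
      intro v h
      rw [(sig_inl b s u x t α γ rk hu hα hγ hx hαi hγi e v).2 h] at h1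
      exact absurd h1 (by simp)
    simp only
    have h3 : c = decide (e = (s, u) ∨ e = (x, t) ∨
        ∃ v w, v ≠ w ∧ b v w = true ∧ e = (α v, γ w)) := by
      unfold sig at h1
      rw [dif_neg (fun ⟨v, h⟩ => h2 v (Or.inl h)), dif_neg (fun ⟨v, h⟩ => h2 v (Or.inr h))] at h1
      exact (Sum.inr_injective h1).symm
    rw [h3, decide_eq_true_eq]
    constructor
    · intro h; exact Or.inr (Or.inr h)
    · rintro (⟨v, hv, -⟩ | ⟨v, hv, -⟩ | h)
      · exact absurd (Or.inl hv) (h2 v)
      · exact absurd (Or.inr hv) (h2 v)
      · exact h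

include hs hu hα hγ hx ht hαi hγi in
theorem ext_rk (y : Pt r) (i j : Fin (n + 1)) (h : ext (sig b s u x t α γ) y (i, j) = true) :
    rk j = rk i + 1 := by
  rcases (ext_sig b s u x t α γ rk hs hu hα hγ hx ht hαi hγi y (i, j)).1 h with
    ⟨v, hv, -⟩ | ⟨v, hv, -⟩ | hv | hv | ⟨v, w, -, -, hv⟩ <;>
  · obtain ⟨h1, h2⟩ := Prod.ext_iff.1 hv
    simp only at h1 h2
    rw [h1, h2]
    simp only [hs, hu, hα, hγ, hx, ht]

include hle hs hu hα hγ hx ht hαi hγi in
theorem ext_shallow (y : Pt r) : Shallow (ext (sig b s u x t α γ) y) := by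
  rintro ⟨p, hp⟩
  have h1 : ∀ i : Fin 6, rk (p i.succ) = rk (p i.castSucc) + 1 := fun i =>
    ext_rk b s u x t α γ rk hs hu hα hγ hx ht hαi hγi y _ _ (hp i).2
  have h2 := hle (p 6)
  have e0 := h1 0
  have e1 := h1 1
  have e2 := h1 2
  have e3 := h1 3
  have e4 := h1 4
  have e5 := h1 5
  have c0 : (Fin.castSucc (0 : Fin 6)) = 0 := rfl
  have c1 : (Fin.castSucc (1 : Fin 6)) = (Fin.succ (0 : Fin 6)) := rfl
  have c2 : (Fin.castSucc (2 : Fin 6)) = (Fin.succ (1 : Fin 6)) := rfl
  have c3 : (Fin.castSucc (3 : Fin 6)) = (Fin.succ (2 : Fin 6)) := rfl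
  have c4 : (Fin.castSucc (4 : Fin 6)) = (Fin.succ (3 : Fin 6)) := rfl
  have c5 : (Fin.castSucc (5 : Fin 6)) = (Fin.succ (4 : Fin 6)) := rfl
  have c6 : (Fin.succ (5 : Fin 6)) = 6 := rfl
  rw [c1] at e1
  rw [c2] at e2
  rw [c3] at e3
  rw [c4] at e4
  rw [c5, c6] at e5
  omega

include hmono hs hu hα hγ hx ht hαi hγi in
theorem ext_reach (y : Pt r) :
    Relation.ReflTransGen (Arc (ext (sig b s u x t α γ) y)) s t ↔ Conf b y := by
  have hchar := ext_sig b s u x t α γ rk hs hu hα hγ hx ht hαi hγi y
  have harc : ∀ i j, ext (sig b s u x t α γ) y (i, j) = true →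
      Arc (ext (sig b s u x t α γ) y) i j := by
    intro i j h
    refine ⟨hmono _ _ ?_, h⟩
    rw [ext_rk b s u x t α γ rk hs hu hα hγ hx ht hαi hγi y _ _ h]
    omega
  constructor
  · intro h
    by_contra hno
    have hclosed : ∀ j, Relation.ReflTransGen (Arc (ext (sig b s u x t α γ) y)) s j →
        j = s ∨ j = u ∨ (∃ v, j = α v ∧ y v = true) ∨
          (∃ w, j = γ w ∧ ∃ v, v ≠ w ∧ b v w = true ∧ y v = true) := by
      intro j hj
      induction hj with
      | refl => exact Or.inl rfl
      | tail _ hjk ih =>
        rename_i j k _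
        rcases (hchar (j, k)).1 hjk.2 with ⟨v, hv, hy⟩ | ⟨v, hv, hy⟩ | hv | hv | ⟨v, w, hvw, hb, hv⟩
        · obtain ⟨h1, h2⟩ := Prod.ext_iff.1 hv
          exact Or.inr (Or.inr (Or.inl ⟨v, h2, hy⟩))
        · exfalso
          obtain ⟨h1, h2⟩ := Prod.ext_iff.1 hv
          simp only at h1 h2
          rcases ih with h3 | h3 | ⟨w, h3, -⟩ | ⟨w, h3, v', h4, h5, h6⟩
          · have := congrArg rk (h1.symm.trans h3); rw [hγ, hs] at this; omega
          · have := congrArg rk (h1.symm.trans h3); rw [hγ, hu] at this; omega
          · have := congrArg rk (h1.symm.trans h3); rw [hγ, hα] at this; omega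
          · have := hγi (h1.symm.trans h3)
            subst this
            exact hno ⟨v', v, h4, h5, h6, hy⟩
        · obtain ⟨h1, h2⟩ := Prod.ext_iff.1 hv
          exact Or.inr (Or.inl h2)
        · exfalso
          obtain ⟨h1, h2⟩ := Prod.ext_iff.1 hv
          simp only at h1 h2
          rcases ih with h3 | h3 | ⟨w, h3, -⟩ | ⟨w, h3, -⟩
          · have := congrArg rk (h1.symm.trans h3); rw [hx, hs] at this; omega
          · have := congrArg rk (h1.symm.trans h3); rw [hx, hu] at this; omega
          · have := congrArg rk (h1.symm.trans h3); rw [hx, hα] at this; omega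
          · have := congrArg rk (h1.symm.trans h3); rw [hx, hγ] at this; omega
        · obtain ⟨h1, h2⟩ := Prod.ext_iff.1 hv
          simp only at h1 h2
          refine Or.inr (Or.inr (Or.inr ⟨w, h2, v, hvw, hb, ?_⟩))
          rcases ih with h3 | h3 | ⟨v', h3, h4⟩ | ⟨w', h3, -⟩
          · have := congrArg rk (h1.symm.trans h3); rw [hα, hs] at this; omega
          · have := congrArg rk (h1.symm.trans h3); rw [hα, hu] at this; omega
          · rw [hαi (h1.symm.trans h3)]; exact h4
          · have := congrArg rk (h1.symm.trans h3); rw [hα, hγ] at this; omega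
    rcases hclosed t h with h3 | h3 | ⟨w, h3, -⟩ | ⟨w, h3, -⟩
    · have := congrArg rk h3; rw [ht, hs] at this; omega
    · have := congrArg rk h3; rw [ht, hu] at this; omega
    · have := congrArg rk h3; rw [ht, hα] at this; omega
    · have := congrArg rk h3; rw [ht, hγ] at this; omega
  · rintro ⟨v, w, hvw, hb, hv, hw⟩
    have h1 := harc s u ((hchar _).2 (Or.inr (Or.inr (Or.inl rfl))))
    have h2 := harc u (α v) ((hchar _).2 (Or.inl ⟨v, rfl, hv⟩))
    have h3 := harc (α v) (γ w) ((hchar _).2 (Or.inr (Or.inr (Or.inr (Or.inr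
      ⟨v, w, hvw, hb, rfl⟩)))))
    have h4 := harc (γ w) x ((hchar _).2 (Or.inr (Or.inl ⟨w, rfl, hw⟩)))
    have h5 := harc x t ((hchar _).2 (Or.inr (Or.inr (Or.inr (Or.inl rfl)))))
    exact ((((Relation.ReflTransGen.single h1).tail h2).tail h3).tail h4).tail h5

end graph

end Pool.Agent.L5helper87.RR
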