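import Pool.Agent.L5helper87.RR.Defs

/-!
# Small read-once programs for reachability
-/

set_option autoImplicit false

open Finset

namespace Pool.Agent.L5helper87.RR

open Pool.Agent.H554R2.Sem Pool.Agent.H554R2.RK

/-- every arc variable once -/
def once (n : ℕ) (e : Fin (n + 1) × Fin (n + 1)) : ℕ := if e.1 < e.2 then 1 else 0

section nondet

variable {n : ℕ}

/-- guess the path -/
@[reducible] def guess (n : ℕ) : NBP (Fin (n + 1) × Fin (n + 1)) where
  State := Fin (n + 1) ⊕ (Fin (n + 1) × Fin (n + 1))
  start := Sum.inl 0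
  query q := match q with
    | Sum.inl _ => none
    | Sum.inr e => some e
  edge q b t := match q with
    | Sum.inl u => (u = Fin.last n ∧ t = none) ∨ ∃ v, u < v ∧ t = some (Sum.inr (u, v))
    | Sum.inr e => b = true ∧ t = some (Sum.inl e.2)

theorem guess_card : Fintype.card (guess n).State = (n + 1) * (n + 2) := by
  have h : Fintype.card (guess n).State =
      Fintype.card (Fin (n + 1) ⊕ (Fin (n + 1) × Fin (n + 1))) := rfl
  rw [h, Fintype.card_sum, Fintype.card_prod, Fintype.card_fin]
  ring

/-- the queries of a path -/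
theorem guess_queries : ∀ (l : List (Fin (n + 1) ⊕ (Fin (n + 1) × Fin (n + 1))))
    (t : Option (Fin (n + 1) ⊕ (Fin (n + 1) × Fin (n + 1)))), Path (guess n) l t →
    (∀ u, hd l t = some (Sum.inl u) → ∀ e, (l.map (guess n).query).count (some e) ≤
      if u ≤ e.1 ∧ e.1 < e.2 then 1 else 0) ∧
    (∀ u v, u < v → hd l t = some (Sum.inr (u, v)) → ∀ e,
      (l.map (guess n).query).count (some e) ≤ if u ≤ e.1 ∧ e.1 < e.2 then 1 else 0) := by
  intro l
  induction l with
  | nil => intro t _; exact ⟨fun _ _ _ => by simp, fun _ _ _ _ _ => by simp⟩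
  | cons q l ih =>
    rintro t ⟨⟨b, h1⟩, h2⟩
    obtain ⟨ih1, ih2⟩ := ih t h2
    constructor
    · intro u hu e
      have hq : q = Sum.inl u := Option.some_injective _ hu
      subst hq
      have h3 : ((Sum.inl u :: l).map (guess n).query).count (some e) =
          (l.map (guess n).query).count (some e) := by
        rw [List.map_cons]
        exact List.count_cons_of_ne (by simp)
      rw [h3]
      have h1' : (u = Fin.last n ∧ hd l t = none) ∨ ∃ v, u < v ∧ hd l t = some (Sum.inr (u, v)) :=
        h1
      rcases h1' with ⟨-, h4⟩ | ⟨v, huv, h4⟩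
      · have h5 : l = [] := by
          cases l with
          | nil => rfl
          | cons a l => exact absurd h4 (by simp [hd])
        rw [h5]; simp
      · exact ih2 u v huv h4 e
    · intro u v huv hu e
      have hq : q = Sum.inr (u, v) := Option.some_injective _ hu
      subst hq
      have h1' : b = true ∧ hd l t = some (Sum.inl v) := h1
      have h4 := ih1 v h1'.2 e
      have h3 : ((Sum.inr (u, v) :: l).map (guess n).query).count (some e) =
          (l.map (guess n).query).count (some e) + if (u, v) = e then 1 else 0 := by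
        rw [List.map_cons, List.count_cons]
        congr 1
        by_cases h : (u, v) = e
        · simp [h]
        · simp [h]
      rw [h3]
      by_cases h : (u, v) = e
      · rw [if_pos h]
        subst h
        simp only at h4 ⊢
        rw [if_neg (fun h => absurd h.1 (not_le.2 huv))] at h4
        rw [if_pos ⟨le_rfl, huv⟩]
        omega
      · rw [if_neg h, add_zero]
        refine h4.trans ?_
        by_cases h5 : v ≤ e.1 ∧ e.1 < e.2
        · rw [if_pos h5, if_pos ⟨huv.le.trans h5.1, h5.2⟩]
        · rw [if_neg h5]; omega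

theorem guess_testBound : TestBound (guess n) (once n) := by
  intro l t h1 h2 e
  have key := (guess_queries l t h2).1 0 h1 e
  have hinst : (instBEqProd : BEq (Fin (n + 1) × Fin (n + 1))) = instBEqOfDecidableEq :=
    lawful_beq_subsingleton _ _
  rw [hinst] at key
  refine key.trans ?_
  unfold once
  split_ifs with h3 h4
  · exact le_rfl
  · exact absurd h3.2 h4
  · omega
  · exact le_rfl

theorem guess_sound (x : Inp n) : ∀ (k : ℕ)
    (l : List (Fin (n + 1) ⊕ (Fin (n + 1) × Fin (n + 1)))), l.length ≤ k →
    ∀ u, hd l none = some (Sum.inl u) → (guess n).Run x l none →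
    Relation.ReflTransGen (Arc x) u (Fin.last n) := by
  intro k
  induction k with
  | zero =>
    intro l hl u hu _
    have : l = [] := List.length_eq_zero_iff.1 (by omega)
    rw [this] at hu
    exact absurd hu (by simp [hd])
  | succ k ih =>
    intro l hl u hu hrun
    cases l with
    | nil => exact absurd hu (by simp [hd])
    | cons q l =>
      have hq : q = Sum.inl u := Option.some_injective _ hu
      subst hq
      obtain ⟨h1, h2⟩ := hrun
      have h1' : ∃ _b : Bool, (u = Fin.last n ∧ hd l none = none) ∨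
          ∃ v, u < v ∧ hd l none = some (Sum.inr (u, v)) := h1
      obtain ⟨-, ⟨h3, -⟩ | ⟨v, huv, h3⟩⟩ := h1'
      · rw [h3]
      · cases l with
        | nil => exact absurd h3 (by simp [hd])
        | cons q l =>
          have hq : q = Sum.inr (u, v) := Option.some_injective _ h3
          subst hq
          obtain ⟨h4, h5⟩ := h2
          have h4' : x (u, v) = true ∧ hd l none = some (Sum.inl v) := h4
          have h6 := ih l (by simp only [List.length_cons] at hl; omega) v h4'.2 h5
          exact Relation.ReflTransGen.head ⟨huv, h4'.1⟩ h6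

theorem guess_complete (x : Inp n) (u : Fin (n + 1))
    (h : Relation.ReflTransGen (Arc x) u (Fin.last n)) :
    ∃ l, hd l none = some (Sum.inl u) ∧ (guess n).Run x l none := by
  induction h using Relation.ReflTransGen.head_induction_on with
  | refl =>
    refine ⟨[Sum.inl (Fin.last n)], rfl, ?_, trivial⟩
    exact ⟨true, Or.inl ⟨rfl, rfl⟩⟩
  | head h1 _ ih =>
    rename_i u v _
    obtain ⟨l, h2, h3⟩ := ih
    refine ⟨Sum.inl u :: Sum.inr (u, v) :: l, rfl, ⟨true, Or.inr ⟨v, h1.1, rfl⟩⟩, ?_, h3⟩
    exact ⟨h1.2, h2⟩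

theorem guess_accepts (x : Inp n) : Accepts (guess n) x ↔ Conn x := by
  constructor
  · rintro ⟨l, h1, h2⟩
    exact guess_sound x l.length l le_rfl 0 h1 h2
  · intro h
    obtain ⟨l, h1, h2⟩ := guess_complete x 0 h
    exact ⟨l, h1, h2⟩

end nondet

section det

variable {n : ℕ}

/-- the number of the pair `e` in the lexicographic order -/
def num (e : Fin (n + 1) × Fin (n + 1)) : ℕ := e.1.1 * (n + 1) + e.2.1

/-- the `i`-th pair -/
def pair (n i : ℕ) (h : i < (n + 1) * (n + 1)) : Fin (n + 1) × Fin (n + 1) :=
  (⟨i / (n + 1), Nat.div_lt_of_lt_mul h⟩, ⟨i % (n + 1), Nat.mod_lt _ (by omega)⟩)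

theorem num_pair (i : ℕ) (h : i < (n + 1) * (n + 1)) : num (pair n i h) = i := by
  unfold num pair
  simp only
  exact Nat.div_add_mod' i (n + 1)

/-- one step: the arc `e` is inspected -/
def upd (R : Finset (Fin (n + 1))) (e : Fin (n + 1) × Fin (n + 1)) (b : Bool) :
    Finset (Fin (n + 1)) := if e.1 < e.2 ∧ e.1 ∈ R ∧ b = true then insert e.2 R else R

/-- breadth first search in the order of the vertices -/
@[reducible] def bfs (n : ℕ) : DBP (Fin (n + 1) × Fin (n + 1)) where
  State := Finset (Fin (n + 1)) × Fin ((n + 1) * (n + 1))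
  start := ({0}, ⟨0, by positivity⟩)
  query q := pair n q.2.1 q.2.2
  next q b := if h : q.2.1 + 1 < (n + 1) * (n + 1) then
      Sum.inl (upd q.1 (pair n q.2.1 q.2.2) b, ⟨q.2.1 + 1, h⟩)
    else Sum.inr (decide (Fin.last n ∈ upd q.1 (pair n q.2.1 q.2.2) b))

theorem bfs_card : Fintype.card (bfs n).State = 2 ^ (n + 1) * (n + 1) ^ 2 := by
  have h : Fintype.card (bfs n).State =
      Fintype.card (Finset (Fin (n + 1)) × Fin ((n + 1) * (n + 1))) := rfl
  rw [h, Fintype.card_prod, Fintype.card_finset, Fintype.card_fin, Fintype.card_fin]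
  ring

theorem bfs_chain : ∀ (l : List (Finset (Fin (n + 1)) × Fin ((n + 1) * (n + 1)))),
    l.IsChain (fun q q' => ∃ b, (bfs n).next q b = Sum.inl q') →
    ∀ q, l.head? = some q → ∀ e, (l.map (bfs n).query).count e ≤ if q.2.1 ≤ num e then 1 else 0 := by
  intro l
  induction l with
  | nil => intro _ q h; exact absurd h (by simp)
  | cons q0 l ih =>
    intro hch q hq e
    have h0 : q0 = q := by simpa using hq
    subst h0
    have hc : ((q0 :: l).map (bfs n).query).count e = (l.map (bfs n).query).count e +
        if pair n q0.2.1 q0.2.2 = e then 1 else 0 := by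
      rw [List.map_cons, List.count_cons]
      congr 1
      by_cases h : pair n q0.2.1 q0.2.2 = e
      · simp [h]
      · simp [h]
    rw [hc]
    have htail : (l.map (bfs n).query).count e ≤ if q0.2.1 + 1 ≤ num e then 1 else 0 := by
      cases l with
      | nil => simp
      | cons q1 l =>
        rw [List.isChain_cons_cons] at hch
        obtain ⟨⟨b, hb⟩, hch'⟩ := hch
        have h1 := ih hch' q1 rfl e
        simp only at hb
        split_ifs at hb with h2
        · have h3 := Sum.inl_injective hb
          have h4 : q1.2.1 = q0.2.1 + 1 := by rw [← h3]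
          rw [h4] at h1
          exact h1
    by_cases h : pair n q0.2.1 q0.2.2 = e
    · have h5 : num e = q0.2.1 := by rw [← h]; exact num_pair _ _
      rw [if_pos h, h5]
      rw [h5, if_neg (by omega)] at htail
      rw [if_pos le_rfl]
      omega
    · rw [if_neg h, add_zero]
      refine htail.trans ?_
      split_ifs <;> omega

theorem bfs_testBound : (bfs n).TestBound (fun _ => 1) := by
  intro l h1 h2 e
  have key := bfs_chain l h2 _ h1 e
  have hinst : (instBEqProd : BEq (Fin (n + 1) × Fin (n + 1))) = instBEqOfDecidableEq :=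
    lawful_beq_subsingleton _ _
  rw [hinst] at key
  refine key.trans ?_
  show _ ≤ 1
  split_ifs <;> norm_num

/-- the invariant: `R` consists of the vertices which are reached from `0` by paths whose last arc
comes before the `i`-th pair -/
def Inv (x : Inp n) (i : ℕ) (R : Finset (Fin (n + 1))) : Prop :=
  ∀ v, v ∈ R ↔ v = 0 ∨ ∃ u, Relation.ReflTransGen (Arc x) 0 u ∧ Arc x u v ∧ num (u, v) < i

theorem num_lt {u v w : Fin (n + 1)} (h : u < w) : num (u, v) < num (w, v) := by
  unfold num
  simp only
  have h1 : u.1 + 1 ≤ w.1 := h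
  have h2 : (u.1 + 1) * (n + 1) ≤ w.1 * (n + 1) := Nat.mul_le_mul_right _ h1
  have h3 : (u.1 + 1) * (n + 1) = u.1 * (n + 1) + (n + 1) := by ring
  omega

theorem num_lt' {u v w z : Fin (n + 1)} (h : u < w) : num (u, v) < num (w, z) := by
  unfold num
  simp only
  have h1 : u.1 + 1 ≤ w.1 := h
  have h2 : (u.1 + 1) * (n + 1) ≤ w.1 * (n + 1) := Nat.mul_le_mul_right _ h1
  have h3 : (u.1 + 1) * (n + 1) = u.1 * (n + 1) + (n + 1) := by ring
  have h4 := v.2
  omega

theorem num_inj {e e' : Fin (n + 1) × Fin (n + 1)} (h : num e = num e') : e = e' := by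
  obtain ⟨u, v⟩ := e
  obtain ⟨w, z⟩ := e'
  rcases lt_trichotomy u w with h1 | h1 | h1
  · exact absurd h (num_lt' h1).ne
  · subst h1
    unfold num at h
    simp only at h
    have : v = z := Fin.ext (by omega)
    rw [this]
  · exact absurd h.symm (num_lt' h1).ne

theorem inv_step (x : Inp n) (i : ℕ) (hi : i < (n + 1) * (n + 1)) (R : Finset (Fin (n + 1)))
    (h : Inv x i R) : Inv x (i + 1) (upd R (pair n i hi) (x (pair n i hi))) := by
  set e := pair n i hi with he
  have hne : num e = i := num_pair i hi
  -- membership of the tail of `e` is decided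
  have h1 : e.1 ∈ R ↔ Relation.ReflTransGen (Arc x) 0 e.1 := by
    rw [h]
    constructor
    · rintro (h2 | ⟨u, h2, h3, -⟩)
      · rw [h2]
      · exact h2.tail h3
    · intro h2
      rcases Relation.ReflTransGen.cases_tail h2 with h3 | ⟨u, h3, h4⟩
      · exact Or.inl h3
      · refine Or.inr ⟨u, h3, h4, ?_⟩
        rw [← hne]
        obtain ⟨a, b⟩ := e
        exact num_lt' h4.1
  intro v
  unfold upd
  have hsplit : ∀ u, num (u, v) < i + 1 ↔ num (u, v) < i ∨ (u, v) = e := by
    intro u
    constructor
    · intro h2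
      by_cases h3 : num (u, v) < i
      · exact Or.inl h3
      · exact Or.inr (num_inj (by omega))
    · rintro (h2 | h2)
      · omega
      · rw [h2]; omega
  split_ifs with hc
  · rw [mem_insert, h]
    constructor
    · rintro (h2 | h2 | ⟨u, h2, h3, h4⟩)
      · refine Or.inr ⟨e.1, h1.1 hc.2.1, ?_, ?_⟩
        · rw [h2]; exact ⟨hc.1, hc.2.2⟩
        · have h5 : num (e.1, e.2) = num e := rfl
          rw [h2]; omega
      · exact Or.inl h2
      · exact Or.inr ⟨u, h2, h3, by omega⟩
    · rintro (h2 | ⟨u, h2, h3, h4⟩)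
      · exact Or.inr (Or.inl h2)
      · rcases (hsplit u).1 h4 with h5 | h5
        · exact Or.inr (Or.inr ⟨u, h2, h3, h5⟩)
        · left; rw [← h5]
  · rw [h]
    constructor
    · rintro (h2 | ⟨u, h2, h3, h4⟩)
      · exact Or.inl h2
      · exact Or.inr ⟨u, h2, h3, by omega⟩
    · rintro (h2 | ⟨u, h2, h3, h4⟩)
      · exact Or.inl h2
      · rcases (hsplit u).1 h4 with h5 | h5
        · exact Or.inr ⟨u, h2, h3, h5⟩
        · exfalso
          apply hc
          rw [← h5]
          refine ⟨h3.1, ?_, h3.2⟩
          have h6 : u = e.1 := by rw [← h5]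
          have h7 := h1.2 (by rw [← h6]; exact h2)
          rw [← h6] at h7
          exact h7

theorem bfs_out (x : Inp n) : ∀ (d : ℕ) (q : Finset (Fin (n + 1)) × Fin ((n + 1) * (n + 1))),
    q.2.1 + d + 1 = (n + 1) * (n + 1) → Inv x q.2.1 q.1 →
    ∃ c, (bfs n).Out x q c ∧ (c = true ↔ Conn x) := by
  intro d
  induction d with
  | zero =>
    intro q hq hinv
    have h1 := inv_step x q.2.1 q.2.2 q.1 hinv
    refine ⟨_, DBP.Out.sink (by simp only; rw [dif_neg (by omega)]), ?_⟩
    rw [decide_eq_true_eq, h1]
    unfold Conn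
    constructor
    · rintro (h2 | ⟨u, h2, h3, -⟩)
      · rw [← h2]
      · exact h2.tail h3
    · intro h2
      rcases Relation.ReflTransGen.cases_tail h2 with h3 | ⟨u, h3, h4⟩
      · exact Or.inl h3
      · refine Or.inr ⟨u, h3, h4, ?_⟩
        have h5 : q.2.1 + 1 = (n + 1) * (n + 1) := by omega
        rw [h5]
        unfold num
        simp only
        have h6 := u.2
        have h7 := (Fin.last n).2
        have h8 : (u.1 + 1) * (n + 1) ≤ (n + 1) * (n + 1) := Nat.mul_le_mul_right _ h6
        have h9 : (u.1 + 1) * (n + 1) = u.1 * (n + 1) + (n + 1) := by ring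
        omega
  | succ d ih =>
    intro q hq hinv
    have hlt : q.2.1 + 1 < (n + 1) * (n + 1) := by omega
    have h1 := inv_step x q.2.1 q.2.2 q.1 hinv
    obtain ⟨c, h2, h3⟩ := ih (upd q.1 (pair n q.2.1 q.2.2) (x (pair n q.2.1 q.2.2)),
      ⟨q.2.1 + 1, hlt⟩) (by simp only; omega) h1
    exact ⟨c, DBP.Out.step (by simp only; rw [dif_pos hlt]) h2, h3⟩

theorem bfs_computes (x : Inp n) : ∃ c, (bfs n).Out x (bfs n).start c ∧ (c = true ↔ Conn x) := by
  have h1 : 0 < (n + 1) * (n + 1) := by positivity
  refine bfs_out x ((n + 1) * (n + 1) - 1) (bfs n).start ?_ ?_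
  · have : ((bfs n).start).2.1 = 0 := rfl
    rw [this]
    omega
  · intro v
    constructor
    · intro h2
      exact Or.inl (mem_singleton.1 h2)
    · rintro (h2 | ⟨u, -, -, h3⟩)
      · exact mem_singleton.2 h2
      · exact absurd h3 (Nat.not_lt_zero _)

end det

end Pool.Agent.L5helper87.RR
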